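import Pool.Agent.T2H96.TW.CntC
import Pool.Agent.T2H96.XE.Grd
import Pool.Agent.T2H96.XP.GK

/-!
Systems of two exponential polynomial equations in two unknowns: quantifiers and guards.
-/

set_option autoImplicit false

namespace Pool.Agent.T2H96.TW

open Set Filter Topology Metric
open scoped Cardinal
open Pool.Agent.TH735.QM Pool.Agent.TH735.FO Pool.Agent.T2H96.XS Pool.Agent.T2H96.XE
open Pool.Agent.T2H96.XP

/-- The two exponential polynomials
`∑_l c_{il}(s) x₁^{α_{il1}} x₂^{α_{il2}} exp(x₁)^{β_{il1}} exp(x₂)^{β_{il2}}` (`i = 1, 2`) in the two unknowns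
`x₁, x₂`, with coefficients which depend on parameters `s ∈ ℂ^m`. -/
noncomputable def Sys2 {m N : ℕ} (c : Fin 2 → Fin N → Pt m → ℂ) (α β : Fin 2 → Fin N → Fin 2 → ℕ)
    (s : Pt m) (x : Pt 2) : Pt 2 := fun i =>
  ∑ l, c i l s * (x 0 ^ α i l 0 * x 1 ^ α i l 1 * Complex.exp (x 0) ^ β i l 0 *
    Complex.exp (x 1) ^ β i l 1)

/-- `x` is a nondegenerate solution of `G(s, x) = 0` (nonzero Jacobian determinant) -/
def IsNd {m n : ℕ} (G : Pt m → Pt n → Pt n) (s : Pt m) (x : Pt n) : Prop :=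
  G s x = 0 ∧ (pJ (G s) x).det ≠ 0

variable {m N : ℕ} {c : Fin 2 → Fin N → Pt m → ℂ} {α β : Fin 2 → Fin N → Fin 2 → ℕ}

theorem nd_iff {γ : ℂ → Pt m} (t : ℂ) (x : Pt 2) :
    IsNd (Sys2 c α β) (γ t) x ↔ NS (fun i l t => c i l (γ t)) α β t x := Iff.rfl

theorem sys2_an (hc : ∀ i l, AnalyticOnNhd ℂ (c i l) univ) :
    AnalyticOnNhd ℂ (fun p : Pt m × Pt 2 => Sys2 c α β p.1 p.2) univ := by
  rintro ⟨s, x⟩ -
  have hx : ∀ i : Fin 2, AnalyticAt ℂ (fun p : Pt m × Pt 2 => p.2 i) (s, x) := fun i =>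
    analyticAt_pi_iff.1 (analyticAt_snd (𝕜 := ℂ) (p := ((s, x) : Pt m × Pt 2))) i
  refine analyticAt_pi_iff.2 fun i => ?_
  unfold Sys2
  refine Finset.analyticAt_fun_sum _ fun l _ => ?_
  have h1 : AnalyticAt ℂ (fun p : Pt m × Pt 2 => c i l p.1) (s, x) :=
    (hc i l s (mem_univ _)).comp (f := fun p : Pt m × Pt 2 => p.1) (x := (s, x)) analyticAt_fst
  exact h1.mul (((((hx 0).pow _).mul ((hx 1).pow _)).mul ((hx 0).cexp.pow _)).mul
    ((hx 1).cexp.pow _))

theorem CQ.two (hc : ∀ i l, AnalyticOnNhd ℂ (c i l) univ) {X : Set (Fin (m + 2) → ℂ)}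
    (hX : CQ (m + 2) X) (κ : Cardinal.{0}) :
    CQ m {s : Pt m | κ ≤ #({x : Pt 2 | IsNd (Sys2 c α β) s x ∧
      (Fin.append s x : Fin (m + 2) → ℂ) ∈ X} : Set (Pt 2))} :=
  fun _ hU hUc γ hγ => two_count (c := fun i l t => c i l (γ t)) hU hUc
    (fun i l t ht => (hc i l (γ t) (mem_univ _)).comp (hγ t ht)) (LQN.CQ hγ hX) κ

theorem meas_nd {n : ℕ} {G : Pt m → Pt n → Pt n}
    (hG : AnalyticOnNhd ℂ (fun p : Pt m × Pt n => G p.1 p.2) univ)
    {X : Set (Fin (m + n) → ℂ)} (hX : MeasurableSet X) (κ : Cardinal.{0}) :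
    MeasurableSet {s : Pt m | κ ≤ #({x : Pt n | IsNd G s x ∧
      (Fin.append s x : Fin (m + n) → ℂ) ∈ X} : Set (Pt n))} := by
  have h := meas_sys (δ := fun _ => 1) (Λ := fun _ _ => 1) (fun _ _ => analyticAt_const) hG
    (fun _ _ => analyticAt_const) hX κ
  convert h using 6 with s x
  unfold IsNd IsSol
  simp

theorem grd_two (hc : ∀ i l, AnalyticOnNhd ℂ (c i l) univ) : Grd (IsNd (Sys2 c α β)) where
  ctb := by
    intro y
    have hZ := br_of_jac isOpen_univ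
      (comp_analytic (U := Set.univ) (γ := fun _ : ℂ => y) (fun _ _ => analyticAt_const)
        (sys2_an (α := α) (β := β) hc)) (Λ := fun _ => 1) (fun _ _ => analyticAt_const)
    refine (sol_countable hZ 0).mono ?_
    intro x hx
    exact ⟨mem_univ _, hx.1, hx.2, one_ne_zero⟩
  good := by
    intro U hU hUc γ hγ
    refine ⟨∅, countable_empty, ?_⟩
    intro t ht _ x hx
    have hZ := br_of_jac hU (comp_analytic hγ (sys2_an (α := α) (β := β) hc)) (Λ := fun _ => 1)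
      (fun _ _ => analyticAt_const)
    obtain ⟨φ, h1, h2, h3⟩ := hZ.br (t, x) ⟨ht, hx.1, hx.2, one_ne_zero⟩
    refine ⟨φ, h1, h2, ?_⟩
    have e1 : ∀ᶠ q : ℂ × Pt 2 in 𝓝 (t, x), q.1 ∈ U :=
      (continuousAt_fst (p := (t, x))).eventually (hU.mem_nhds ht)
    filter_upwards [h3, e1] with q q1 q2
    rw [← q1]
    exact ⟨fun h' => ⟨q2, h'.1, h'.2, one_ne_zero⟩, fun h' => ⟨h'.2.1, h'.2.2.1⟩⟩
  cnt := by
    intro U hU hUc γ hγ Y hY
    refine (two_count (c := fun i l t => c i l (γ t)) (α := α) (β := β) hU hUc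
      (fun i l t ht => (hc i l (γ t) (mem_univ _)).comp (hγ t ht)) hY 1).congr' ?_
    intro t _
    simp only [Set.mem_ofPred_eq]
    rw [Cardinal.one_le_iff_ne_zero, Cardinal.mk_ne_zero_iff, nonempty_subtype]
    rfl
  cur := by
    intro U hU hUc γ hγ z hz
    exact lqn_ns (c := fun i l t => c i l (γ t)) hU
      (fun i l t ht => (hc i l (γ t) (mem_univ _)).comp (hγ t ht)) U subset_rfl hU hUc z hz

theorem grdK_two (hc : ∀ i l, AnalyticOnNhd ℂ (c i l) univ) : GrdK (IsNd (Sys2 c α β)) :=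
  { grd_two hc with
    gd := by
      rintro y x ⟨h0, hdet⟩
      have han := sys2_an (α := α) (β := β) hc
      obtain ⟨φ, hφ, hφx, hev⟩ := ift_m han h0 hdet
      refine ⟨φ, hφ, hφx, ?_⟩
      have hdc : Continuous (fun p : Pt m × Pt 2 => (pJ (Sys2 c α β p.1) p.2).det) :=
        det_continuous (g := fun p : Pt m × Pt 2 => Sys2 c α β p.1 p.2) han
      have e2 : ∀ᶠ q : Pt m × Pt 2 in 𝓝 (y, x), (pJ (Sys2 c α β q.1) q.2).det ≠ 0 :=
        hdc.continuousAt.eventually_ne hdet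
      filter_upwards [hev, e2] with q q1 q3
      constructor
      · rintro ⟨h, -⟩
        exact q1.1 h
      · intro h
        exact ⟨q1.2 h, q3⟩ }

end Pool.Agent.T2H96.TW
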