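import Pool.Agent.T2H96.TW.Defs

/-!
PACKAGE I2 (35-50 min). A nondegenerate common zero on an algebraic curve is not isolated in the
curve, but it is isolated among the common zeros.

Paper proof. Since the Jacobian determinant of `G` at `x = (y₁ + λ y₂, y₂)` is not zero, `G` is injective near `x` (inverse
function theorem; see `inv_of_det`, `ift_n` in XS/Jac.lean, or `sep` in XS/Sep.lean), so `x` is the only zero of `G` in a ball
around `x`. The curve `{(y₁', y₂') : mpoly (k y₁') y₂' = 0}` has points `≠ (y₁, y₂)` in each neighbourhood of `(y₁, y₂)`: for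
`y₁' ≠ y₁` near `y₁`, `mpoly (k y₁') z = ∏_j (z - z_j)` (`n` roots with multiplicity, `ℂ` algebraically closed; `n ≥ 1` since
`y₂` is a root), and `∏_j |y₂ - z_j| = |mpoly (k y₁') y₂|` is as small as we like by continuity, so that one
of the roots `z_j` is near `y₂`. (Note: `(y₁, y₂) ↦ (y₁ + λ y₂, y₂)` is injective.) So there are points of the curve
arbitrarily near `(y₁, y₂)` where `G ≠ 0`, that is `G_0 ≠ 0` or `G_1 ≠ 0`; one of the two occurs arbitrarily
near (`closure_union`).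
-/

set_option autoImplicit false

namespace Pool.Agent.T2H96.TW

open Set Filter Topology Metric
open Pool.Agent.T2H96.XS

/-- a monic polynomial which is small at `w` has a root near `w` -/
theorem I2_root (P : Polynomial ℂ) (hP : P.Monic) (w : ℂ) {ε : ℝ} (hε : 0 < ε)
    (h : ‖P.eval w‖ < ε ^ P.natDegree) : ∃ z, P.eval z = 0 ∧ ‖w - z‖ < ε := by
  by_contra hcon
  push Not at hcon
  have hs : P.Splits := IsAlgClosed.splits P
  have hcard : P.roots.card = P.natDegree := (Polynomial.splits_iff_card_roots.1 hs)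
  have hall : ∀ s : Multiset ℂ, (∀ z ∈ s, ε ≤ ‖w - z‖) →
      ε ^ s.card ≤ ‖(s.map (fun a => w - a)).prod‖ := by
    intro s
    induction s using Multiset.induction_on with
    | empty => intro _; simp
    | cons a s ih =>
      intro hs
      rw [Multiset.map_cons, Multiset.prod_cons, norm_mul, Multiset.card_cons, pow_succ']
      apply mul_le_mul (hs a (Multiset.mem_cons_self a s))
        (ih (fun z hz => hs z (Multiset.mem_cons_of_mem hz))) (by positivity) (norm_nonneg _)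
  have h1 : P.eval w = (P.roots.map (fun a => w - a)).prod := by
    conv_lhs => rw [Polynomial.Splits.eq_prod_roots_of_monic hs hP]
    rw [Polynomial.eval_multiset_prod, Multiset.map_map]
    congr 1
    apply Multiset.map_congr rfl
    intro a _
    simp
  have h2 := hall P.roots (fun z hz => hcon z (Polynomial.isRoot_of_mem_roots hz))
  rw [hcard, ← h1] at h2
  linarith

/-- the curve has points near each of its points -/
theorem I2_curve {n : ℕ} {k : Fin n → ℂ → ℂ} (hk : ∀ j, Continuous (k j)) {y₁ y₂ : ℂ}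
    (hq : mpoly (fun j => k j y₁) y₂ = 0) {ε : ℝ} (hε : 0 < ε) :
    ∃ a b : ℂ, a ≠ y₁ ∧ dist a y₁ < ε ∧ dist b y₂ < ε ∧ mpoly (fun j => k j a) b = 0 := by
  have hc : Continuous (fun a : ℂ => mpoly (fun j => k j a) y₂) := by
    unfold mpoly
    fun_prop
  have hev : ∀ᶠ a in 𝓝 y₁, ‖mpoly (fun j => k j a) y₂‖ < ε ^ n := by
    have h1 : Tendsto (fun a : ℂ => ‖mpoly (fun j => k j a) y₂‖) (𝓝 y₁) (𝓝 0) := by
      have := (hc.norm).tendsto y₁
      simpa [hq] using this
    exact h1.eventually (gt_mem_nhds (pow_pos hε n))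
  have hev2 : ∀ᶠ a in 𝓝 y₁, dist a y₁ < ε := Metric.ball_mem_nhds y₁ hε
  have hne : ∃ᶠ a in 𝓝 y₁, a ≠ y₁ := by
    have : (𝓝[≠] y₁).NeBot := inferInstance
    exact frequently_mem_iff_neBot.2 this
  obtain ⟨a, ha1, ha2, ha3⟩ := (hne.and_eventually (hev2.and hev)).exists
  let P : Polynomial ℂ := Polynomial.X ^ n + ∑ j : Fin n, Polynomial.C (k j a) * Polynomial.X ^ (j : ℕ)
  have hdeg : (∑ j : Fin n, Polynomial.C (k j a) * Polynomial.X ^ (j : ℕ) : Polynomial ℂ).degree < n :=
    Polynomial.degree_sum_fin_lt (fun j => k j a)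
  have hP : P.Monic := Polynomial.monic_X_pow_add hdeg
  have hPd : P.natDegree = n := by
    apply Polynomial.natDegree_eq_of_degree_eq_some
    have : (Polynomial.X ^ n : Polynomial ℂ).degree = n := Polynomial.degree_X_pow n
    rw [Polynomial.degree_add_eq_left_of_degree_lt (by rw [this]; exact hdeg), this]
  have hPe : ∀ z, P.eval z = mpoly (fun j => k j a) z := by
    intro z
    simp [P, mpoly, Polynomial.eval_finsetSum]
  obtain ⟨b, hb1, hb2⟩ := I2_root P hP y₂ hε (by rw [hPe, hPd]; exact ha3)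
  refine ⟨a, b, ha1, ha2, ?_, by rw [← hPe]; exact hb1⟩
  rw [dist_comm, dist_eq_norm]
  exact hb2

theorem I2_isol {G : Pt 2 → Pt 2} (hG : AnalyticOnNhd ℂ G univ) {x : Pt 2} (h0 : G x = 0)
    (hd : (pJ G x).det ≠ 0) : ∀ᶠ y in 𝓝 x, G y = 0 → y = x := by
  have hg : AnalyticOnNhd ℂ (fun p : ℂ × Pt 2 => G p.2) (univ ×ˢ univ) := by
    intro p _
    exact (hG p.2 (mem_univ _)).fun_comp analyticAt_snd
  obtain ⟨φ, _, hφ, hev⟩ := ift_n hg (p := ((0 : ℂ), x)) (mem_univ _) h0 hd
  have hcont : Tendsto (fun y : Pt 2 => ((0 : ℂ), y)) (𝓝 x) (𝓝 ((0 : ℂ), x)) := by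
    exact (Continuous.prodMk_right (0 : ℂ)).tendsto x
  filter_upwards [hcont.eventually hev] with y hy h
  rw [hy.1 h]
  exact hφ

theorem isol2 {n : ℕ} {k : Fin n → ℂ → ℂ} (hk : ∀ j, Continuous (k j)) {G : Pt 2 → Pt 2}
    (hG : AnalyticOnNhd ℂ G univ) {lam y₁ y₂ : ℂ} (hq : mpoly (fun j => k j y₁) y₂ = 0)
    (h0 : G (pt2 (y₁ + lam * y₂) y₂) = 0) (hd : (pJ G (pt2 (y₁ + lam * y₂) y₂)).det ≠ 0) :
    ∃ i : Fin 2, (y₁, y₂) ∈ closure {y : ℂ × ℂ | mpoly (fun j => k j y.1) y.2 = 0 ∧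
      G (pt2 (y.1 + lam * y.2) y.2) i ≠ 0} := by
  have hΨ : Continuous (fun y : ℂ × ℂ => pt2 (y.1 + lam * y.2) y.2) := by
    unfold pt2
    refine continuous_pi (fun i => ?_)
    fin_cases i
    · simp only [Fin.zero_eta, Matrix.cons_val_zero]; fun_prop
    · simp only [Fin.mk_one, Matrix.cons_val_one, Matrix.cons_val_zero]; fun_prop
  have hev := I2_isol hG h0 hd
  have hev2 : ∀ᶠ y : ℂ × ℂ in 𝓝 (y₁, y₂), G (pt2 (y.1 + lam * y.2) y.2) = 0 →
      pt2 (y.1 + lam * y.2) y.2 = pt2 (y₁ + lam * y₂) y₂ :=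
    (hΨ.tendsto (y₁, y₂)).eventually hev
  rw [Metric.eventually_nhds_iff] at hev2
  obtain ⟨δ, hδ, hball⟩ := hev2
  have hmem : (y₁, y₂) ∈ closure (⋃ i : Fin 2, {y : ℂ × ℂ | mpoly (fun j => k j y.1) y.2 = 0 ∧
      G (pt2 (y.1 + lam * y.2) y.2) i ≠ 0}) := by
    rw [Metric.mem_closure_iff]
    intro ε hε
    obtain ⟨a, b, hab1, hab2, hab3, hab4⟩ := I2_curve hk hq (lt_min hε hδ)
    have hd1 : dist (a, b) (y₁, y₂) < min ε δ := by
      rw [Prod.dist_eq]; exact max_lt hab2 hab3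
    have hne : G (pt2 (a + lam * b) b) ≠ 0 := by
      intro h
      have h1 := hball (lt_of_lt_of_le hd1 (min_le_right _ _)) h
      have h2 := congrFun h1 1
      have h3 := congrFun h1 0
      simp [pt2] at h2 h3
      apply hab1
      rw [h2] at h3
      linear_combination h3
    obtain ⟨i, hi⟩ := Function.ne_iff.1 hne
    refine ⟨(a, b), mem_iUnion.2 ⟨i, hab4, hi⟩, ?_⟩
    rw [dist_comm]
    exact lt_of_lt_of_le hd1 (min_le_left _ _)
  rw [closure_iUnion_of_finite, mem_iUnion] at hmem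
  exact hmem

end Pool.Agent.T2H96.TW
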