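import Pool.Agent.T2H96.TW.Defs

/-!
PACKAGE L2 (45-60 min). After a linear change of coordinates a nonzero polynomial in two variables is, up to a
factor depending only on `t`, monic in the second one.

Paper proof. Let `q(t, x) = ∑ b_{ij}(t) x₁^i x₂^j` be not identically zero, `n` the largest `i + j` for which `b_{ij}` is not
identically zero on `U`. The coefficient of `y₂^n` in `q(t, y₁ + λ y₂, y₂)` is
`κ(t) = ∑_{i+j=n} b_{ij}(t) λ^i` (independent of `y₁`, since all monomials have total degree at most `n` in `(y₁, y₂)`), and there are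
no higher powers of `y₂`, after replacing the identically vanishing `b_{ij}` with `0`. Choose `t₁ ∈ U` and `(i, j)`, `i + j = n`,
with `b_{ij}(t₁) ≠ 0`; then the polynomial `∑_{i+j=n} b_{ij}(t₁) λ^i` in `λ` is not zero, so it has a nonroot `λ`. The
other coefficients `k_j(t, y₁)`, `j < n`, are polynomials in `y₁` with coefficients which are linear
combinations of the `b_{ij}(t)` (binomial theorem).
-/

set_option autoImplicit false

namespace Pool.Agent.T2H96.TW

open Set Filter Topology Metric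
open Pool.Agent.T2H96.XS

/-- the coefficient of `y₂^s` -/
noncomputable def L2Kc {e : ℕ} (b : Fin e → Fin e → ℂ → ℂ) (lam : ℂ) (s : ℕ) (t y : ℂ) : ℂ :=
  ∑ i : Fin e, ∑ j : Fin e, ∑ m ∈ Finset.range ((i : ℕ) + 1),
    if m + (j : ℕ) = s then b i j t * (lam ^ m * y ^ ((i : ℕ) - m) * (Nat.choose i m : ℂ)) else 0

/-- the leading coefficient -/
noncomputable def L2kap {e : ℕ} (b : Fin e → Fin e → ℂ → ℂ) (lam : ℂ) (n : ℕ) (t : ℂ) : ℂ :=
  ∑ i : Fin e, ∑ j : Fin e, if (i : ℕ) + (j : ℕ) = n then b i j t * lam ^ (i : ℕ) else 0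

lemma L2expand {e : ℕ} (b : Fin e → Fin e → ℂ → ℂ) (lam : ℂ) (n : ℕ) (t y₁ y₂ : ℂ)
    (h : ∀ i j : Fin e, n < (i : ℕ) + j → b i j t = 0) :
    qpoly (fun i j => b i j t) (pt2 (y₁ + lam * y₂) y₂) =
      ∑ s ∈ Finset.range (n + 1), L2Kc b lam s t y₁ * y₂ ^ s := by
  have h0 : ∀ s, L2Kc b lam s t y₁ * y₂ ^ s = ∑ i : Fin e, ∑ j : Fin e,
      ∑ m ∈ Finset.range ((i : ℕ) + 1), if m + (j : ℕ) = s then
        b i j t * (lam ^ m * y₁ ^ ((i : ℕ) - m) * (Nat.choose i m : ℂ)) * y₂ ^ s else 0 := by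
    intro s
    unfold L2Kc
    simp only [Finset.sum_mul, ite_mul, zero_mul]
  simp only [h0]
  rw [Finset.sum_comm]
  unfold qpoly
  refine Finset.sum_congr rfl fun i _ => ?_
  rw [Finset.sum_comm]
  refine Finset.sum_congr rfl fun j _ => ?_
  rw [Finset.sum_comm]
  have e1 : (pt2 (y₁ + lam * y₂) y₂) 0 = lam * y₂ + y₁ := by
    simp [pt2, add_comm]
  have e2 : (pt2 (y₁ + lam * y₂) y₂) 1 = y₂ := by simp [pt2]
  rw [e1, e2, add_pow, Finset.sum_mul, Finset.mul_sum]
  refine Finset.sum_congr rfl fun m hm => ?_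
  rw [Finset.sum_ite_eq (Finset.range (n + 1)) (m + (j : ℕ))
    (fun s => b i j t * (lam ^ m * y₁ ^ ((i : ℕ) - m) * (Nat.choose i m : ℂ)) * y₂ ^ s)]
  have hm' : m ≤ (i : ℕ) := by
    have := Finset.mem_range.1 hm
    omega
  split_ifs with hs
  · rw [mul_pow, pow_add]
    ring
  · have : b i j t = 0 := h i j (by
      rw [Finset.mem_range] at hs
      omega)
    beta_reduce
    rw [this]
    ring

lemma L2top {e : ℕ} (b : Fin e → Fin e → ℂ → ℂ) (lam : ℂ) (n : ℕ) (t y : ℂ)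
    (h : ∀ i j : Fin e, n < (i : ℕ) + j → b i j t = 0) : L2Kc b lam n t y = L2kap b lam n t := by
  unfold L2Kc L2kap
  refine Finset.sum_congr rfl fun i _ => Finset.sum_congr rfl fun j _ => ?_
  rcases lt_trichotomy ((i : ℕ) + j) n with hlt | heq | hgt
  · rw [if_neg hlt.ne]
    refine Finset.sum_eq_zero fun m hm => ?_
    rw [if_neg]
    have := Finset.mem_range.1 hm
    omega
  · rw [if_pos heq, Finset.sum_eq_single (i : ℕ)]
    · rw [if_pos heq]
      simp
    · intro m hm hne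
      rw [if_neg]
      omega
    · intro hm
      exact absurd (Finset.mem_range.2 (Nat.lt_succ_self _)) hm
  · rw [if_neg hgt.ne']
    refine Finset.sum_eq_zero fun m hm => ?_
    rw [h i j hgt]
    split_ifs <;> ring

theorem lead2 {U : Set ℂ} {e : ℕ} {b : Fin e → Fin e → ℂ → ℂ}
    (hb : ∀ i j, AnalyticOnNhd ℂ (b i j) U) (hne : ∃ i j, ∃ t ∈ U, b i j t ≠ 0) :
    ∃ (lam : ℂ) (n : ℕ) (κ : ℂ → ℂ) (k : Fin n → ℂ → ℂ → ℂ), AnalyticOnNhd ℂ κ U ∧
      (∃ t ∈ U, κ t ≠ 0) ∧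
      (∀ j, AnalyticOnNhd ℂ (fun p : ℂ × ℂ => k j p.1 p.2) (U ×ˢ univ)) ∧
      (∀ j, ∀ t₀ ∈ U, ∃ (A : ℝ) (ρ : ℕ), ∀ᶠ t in 𝓝 t₀, ∀ y, ‖k j t y‖ ≤ A * (1 + ‖y‖) ^ ρ) ∧
      ∀ t ∈ U, ∀ y₁ y₂ : ℂ, qpoly (fun i j => b i j t) (pt2 (y₁ + lam * y₂) y₂) =
        κ t * y₂ ^ n + ∑ j : Fin n, k j t y₁ * y₂ ^ (j : ℕ) := by
  classical
  obtain ⟨i0, j0, t0, ht0, hb0⟩ := hne
  obtain ⟨S, hSd⟩ : ∃ S : Finset (Fin e × Fin e), S = Finset.univ.filter
    fun p => ∃ t ∈ U, b p.1 p.2 t ≠ 0 := ⟨_, rfl⟩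
  have hmem : ∀ p : Fin e × Fin e, p ∈ S ↔ ∃ t ∈ U, b p.1 p.2 t ≠ 0 := by
    intro p
    rw [hSd, Finset.mem_filter]
    exact ⟨fun h => h.2, fun h => ⟨Finset.mem_univ _, h⟩⟩
  have hS : S.Nonempty := ⟨(i0, j0), (hmem _).2 ⟨t0, ht0, hb0⟩⟩
  obtain ⟨⟨i₁, j₁⟩, h1, hmax⟩ := S.exists_max_image (fun p => (p.1 : ℕ) + p.2) hS
  obtain ⟨t₁, ht₁, hb₁⟩ := (hmem _).1 h1
  simp only at hb₁ hmax
  obtain ⟨n, hn⟩ : ∃ n : ℕ, n = (i₁ : ℕ) + j₁ := ⟨_, rfl⟩
  rw [← hn] at hmax
  have hzero : ∀ t ∈ U, ∀ i j : Fin e, n < (i : ℕ) + j → b i j t = 0 := by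
    intro t ht i j hij
    by_contra h
    have := hmax (i, j) ((hmem _).2 ⟨t, ht, h⟩)
    simp only at this
    omega
  -- the choice of `lam`
  obtain ⟨lam, hlam⟩ : ∃ lam : ℂ, L2kap b lam n t₁ ≠ 0 := by
    by_contra hc
    push Not at hc
    have hQ : (∑ i : Fin e, ∑ j : Fin e, if (i : ℕ) + (j : ℕ) = n then
        Polynomial.C (b i j t₁) * Polynomial.X ^ (i : ℕ) else 0 : Polynomial ℂ) = 0 := by
      refine Polynomial.funext fun r => ?_
      have := hc r
      unfold L2kap at this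
      simp only [Polynomial.eval_finsetSum, apply_ite (Polynomial.eval r), Polynomial.eval_mul,
        Polynomial.eval_C, Polynomial.eval_pow, Polynomial.eval_X, Polynomial.eval_zero]
      exact this
    have h2 := congrArg (fun p : Polynomial ℂ => p.coeff (i₁ : ℕ)) hQ
    simp only [Polynomial.finsetSum_coeff, Polynomial.coeff_zero] at h2
    rw [Finset.sum_eq_single i₁, Finset.sum_eq_single j₁] at h2
    · rw [if_pos hn.symm] at h2
      simp at h2
      exact hb₁ h2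
    · intro j _ hj
      rw [if_neg]
      · simp
      · intro h
        apply hj
        ext
        omega
    · intro h
      exact absurd (Finset.mem_univ _) h
    · intro i _ hi
      refine Finset.sum_eq_zero fun j _ => ?_
      split_ifs
      · rw [Polynomial.coeff_C_mul, Polynomial.coeff_X_pow, if_neg, mul_zero]
        intro h
        exact hi (Fin.ext h.symm)
      · simp
    · intro h
      exact absurd (Finset.mem_univ _) h
  refine ⟨lam, n, L2kap b lam n, fun s t y => L2Kc b lam s t y, ?_, ⟨t₁, ht₁, hlam⟩, ?_, ?_, ?_⟩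
  · intro t ht
    unfold L2kap
    refine Finset.analyticAt_fun_sum _ fun i _ => Finset.analyticAt_fun_sum _ fun j _ => ?_
    split_ifs
    · exact (hb i j t ht).mul analyticAt_const
    · exact analyticAt_const
  · intro s p hp
    unfold L2Kc
    refine Finset.analyticAt_fun_sum _ fun i _ => Finset.analyticAt_fun_sum _ fun j _ =>
      Finset.analyticAt_fun_sum _ fun m _ => ?_
    split_ifs
    · refine AnalyticAt.mul ((hb i j p.1 hp.1).comp analyticAt_fst) ?_
      exact (analyticAt_const.mul (analyticAt_snd.pow _)).mul analyticAt_const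
    · exact analyticAt_const
  · intro s t₀ ht₀
    refine ⟨∑ i : Fin e, ∑ j : Fin e, ∑ m ∈ Finset.range ((i : ℕ) + 1),
      (‖b i j t₀‖ + 1) * (‖lam‖ ^ m * (Nat.choose i m : ℝ)), e, ?_⟩
    have hev : ∀ᶠ t in 𝓝 t₀, ∀ i j, ‖b i j t‖ ≤ ‖b i j t₀‖ + 1 := by
      rw [Filter.eventually_all]
      intro i
      rw [Filter.eventually_all]
      intro j
      have hc : ContinuousAt (fun t => ‖b i j t‖) t₀ := (hb i j t₀ ht₀).continuousAt.norm
      filter_upwards [hc.eventually (gt_mem_nhds (lt_add_one ‖b i j t₀‖))] with t ht using ht.le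
    filter_upwards [hev] with t ht y
    unfold L2Kc
    rw [Finset.sum_mul]
    refine (norm_sum_le _ _).trans (Finset.sum_le_sum fun i _ => ?_)
    rw [Finset.sum_mul]
    refine (norm_sum_le _ _).trans (Finset.sum_le_sum fun j _ => ?_)
    rw [Finset.sum_mul]
    refine (norm_sum_le _ _).trans (Finset.sum_le_sum fun m _ => ?_)
    split_ifs
    · rw [norm_mul, norm_mul, norm_mul, norm_pow, norm_pow, Complex.norm_natCast]
      have h1 : ‖y‖ ^ ((i : ℕ) - m) ≤ (1 + ‖y‖) ^ e := by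
        calc ‖y‖ ^ ((i : ℕ) - m) ≤ (1 + ‖y‖) ^ ((i : ℕ) - m) := by
              gcongr
              linarith
          _ ≤ (1 + ‖y‖) ^ e := pow_le_pow_right₀ (by linarith [norm_nonneg y]) (by omega)
      calc ‖b i j t‖ * (‖lam‖ ^ m * ‖y‖ ^ ((i : ℕ) - m) * (Nat.choose i m : ℝ)) ≤
            (‖b i j t₀‖ + 1) * (‖lam‖ ^ m * (1 + ‖y‖) ^ e * (Nat.choose i m : ℝ)) := by
            gcongr
            exact ht i j
        _ = _ := by ring
    · rw [norm_zero]
      positivity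
  · intro t ht y₁ y₂
    rw [L2expand b lam n t y₁ y₂ (hzero t ht), Finset.sum_range_succ, L2top b lam n t y₁ (hzero t ht),
      add_comm, Finset.sum_range]

end Pool.Agent.T2H96.TW
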