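import Pool.Agent.T2H96.TW.Defs

/-!
PACKAGE N2 (75-100 min). The norm of an exponential polynomial on a family of plane algebraic curves which are
monic in the second coordinate.

Paper proof. If `n = 0` there are no points on the curves; take `ν = 1`. Let `M(t, y₁)` be the companion matrix (`n × n`) of the
monic polynomial `z^n + ∑ k_j(t, y₁) z^j`: if `z = y₂` is a root then `M v = y₂ v` (or `v M = y₂ v`) for the nonzero vector
`v = (1, y₂, …, y₂^{n-1})`. Let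
`Φ(t, y₁) = ∑_l c_l(t) (y₁ + λ M)^{α_{l1}} M^{α_{l2}} exp(y₁ + λ M)^{β_{l1}} exp(M)^{β_{l2}}` (matrix exponentials;
everything commutes), a matrix whose entries are analytic on `U × ℂ`, and which are bounded by
`exp(A (1 + |y₁|)^ρ)` locally uniformly in `t` (`‖exp M‖ ≤ exp ‖M‖`). At a root `y₂`, `Φ(t, y₁) v = F(t, y₁ + λ y₂, y₂) v`, so
`F(t, y₁ + λ y₂, y₂)` (`F = epoly`) is an eigenvalue of `Φ(t, y₁)`.
Let `χ(z) = z^n + ∑_{j<n} e_j(t, y₁) z^j` be the characteristic polynomial of `Φ(t, y₁)`. Its coefficients are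
polynomials in the entries of the matrix, so analytic on `U × ℂ` and of finite order. Let `a` be the least index `j ≤ n` such that
`e_j` does not vanish identically on `U × ℂ` (`e_n = 1`), `ν = e_a`. So `χ(z) = z^a R(z)`, `R = ∑_{j ≥ a} e_j z^{j-a}`,
`R(0) = ν`. Let `(y₁, y₂)` be as in the statement, `y^{(m)} → (y₁, y₂)` a sequence in the set whose
closure is taken, `μ_m = F(t, y^{(m)}) ≠ 0`. Then `χ(t, y₁^{(m)}; μ_m) = 0`, so `R(t, y₁^{(m)}; μ_m) = 0`, and in the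
limit, since `μ_m → F(t, y₁, y₂) = 0`, `R(t, y₁; 0) = ν(t, y₁) = 0`.
Remark: the matrices can be replaced with continuous linear maps of `Fin n → ℂ` (a Banach algebra, so `NormedSpace.exp` is
analytic there), or use a local instance `Matrix.linftyOpNormedRing/Algebra`; the coefficients of the
characteristic polynomial are polynomials in the entries (`Matrix.charpoly`, `Matrix.det_apply`).
-/

set_option autoImplicit false

namespace Pool.Agent.T2H96.TW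

open Set Filter Topology Metric
open Pool.Agent.T2H96.XS

section Aux

open scoped Matrix.Norms.Operator Matrix

/-- `v` is an eigenvector (or zero) -/
def Eg {m : ℕ} (v : Fin m → ℂ) (M : Matrix (Fin m) (Fin m) ℂ) (a : ℂ) : Prop := M *ᵥ v = a • v

lemma Eg.mul {m : ℕ} {v : Fin m → ℂ} {M N : Matrix (Fin m) (Fin m) ℂ} {a b : ℂ} (h : Eg v M a)
    (h' : Eg v N b) : Eg v (M * N) (a * b) := by
  unfold Eg at *
  rw [← Matrix.mulVec_mulVec, h', Matrix.mulVec_smul, h, smul_smul, mul_comm]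

lemma Eg.one {m : ℕ} {v : Fin m → ℂ} : Eg v (1 : Matrix (Fin m) (Fin m) ℂ) 1 := by
  unfold Eg
  simp

lemma Eg.pow {m : ℕ} {v : Fin m → ℂ} {M : Matrix (Fin m) (Fin m) ℂ} {a : ℂ} (h : Eg v M a)
    (j : ℕ) : Eg v (M ^ j) (a ^ j) := by
  induction j with
  | zero => simpa using Eg.one
  | succ j ih => rw [pow_succ, pow_succ]; exact ih.mul h

lemma Eg.add {m : ℕ} {v : Fin m → ℂ} {M N : Matrix (Fin m) (Fin m) ℂ} {a b : ℂ} (h : Eg v M a)
    (h' : Eg v N b) : Eg v (M + N) (a + b) := by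
  unfold Eg at *
  rw [Matrix.add_mulVec, h, h', add_smul]

lemma Eg.smul {m : ℕ} {v : Fin m → ℂ} {M : Matrix (Fin m) (Fin m) ℂ} {a : ℂ} (h : Eg v M a)
    (b : ℂ) : Eg v (b • M) (b * a) := by
  unfold Eg at *
  rw [Matrix.smul_mulVec, h, smul_smul]

lemma Eg.sum {m : ℕ} {v : Fin m → ℂ} {ι : Type*} (s : Finset ι)
    {M : ι → Matrix (Fin m) (Fin m) ℂ} {a : ι → ℂ} (h : ∀ i ∈ s, Eg v (M i) (a i)) :
    Eg v (∑ i ∈ s, M i) (∑ i ∈ s, a i) := by
  classical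
  induction s using Finset.induction_on with
  | empty => simp [Eg]
  | insert i s hi ih =>
    rw [Finset.sum_insert hi, Finset.sum_insert hi]
    exact (h i (Finset.mem_insert_self i s)).add
      (ih fun j hj => h j (Finset.mem_insert_of_mem hj))

/-- multiplication with `v` -/
noncomputable def mv {m : ℕ} (v : Fin m → ℂ) : Matrix (Fin m) (Fin m) ℂ →L[ℂ] (Fin m → ℂ) :=
  LinearMap.toContinuousLinearMap
    { toFun := fun M => M *ᵥ v
      map_add' := fun M N => Matrix.add_mulVec M N v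
      map_smul' := fun a M => Matrix.smul_mulVec a M v }

lemma mv_apply {m : ℕ} (v : Fin m → ℂ) (M : Matrix (Fin m) (Fin m) ℂ) : mv v M = M *ᵥ v := rfl

lemma Eg.exp {m : ℕ} {v : Fin m → ℂ} {M : Matrix (Fin m) (Fin m) ℂ} {a : ℂ} (h : Eg v M a) :
    Eg v (NormedSpace.exp M) (Complex.exp a) := by
  have h1 := (NormedSpace.exp_series_hasSum_exp' (𝕂 := ℂ) M).mapL (mv v)
  have h2 := (NormedSpace.exp_series_hasSum_exp' (𝕂 := ℂ) a).smul_const v
  have e : (fun j : ℕ => mv v ((j.factorial⁻¹ : ℂ) • M ^ j)) =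
      fun j : ℕ => ((j.factorial⁻¹ : ℂ) • a ^ j) • v := by
    funext j
    rw [map_smul, mv_apply, h.pow j, smul_smul, smul_eq_mul]
  rw [e] at h1
  have h3 := h1.unique h2
  rw [mv_apply, ← Complex.exp_eq_exp_ℂ] at h3
  exact h3

lemma norm_exp_le {m : ℕ} (M : Matrix (Fin (m + 1)) (Fin (m + 1)) ℂ) :
    ‖NormedSpace.exp M‖ ≤ Real.exp ‖M‖ := by
  have h1 := NormedSpace.exp_series_hasSum_exp' (𝕂 := ℂ) M
  have h2 : HasSum (fun j : ℕ => (j.factorial⁻¹ : ℝ) • ‖M‖ ^ j) (Real.exp ‖M‖) := by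
    rw [Real.exp_eq_exp_ℝ]
    exact NormedSpace.exp_series_hasSum_exp' (𝕂 := ℝ) ‖M‖
  refine h1.norm_le_of_bounded h2 fun j => ?_
  rw [norm_smul, smul_eq_mul]
  have e : ‖(j.factorial⁻¹ : ℂ)‖ = (j.factorial⁻¹ : ℝ) := by
    rw [norm_inv, Complex.norm_natCast]
  rw [e]
  exact mul_le_mul_of_nonneg_left (norm_pow_le M j) (by positivity)

/-- the entry `(i, j)` -/
noncomputable def en {m : ℕ} (i j : Fin m) : Matrix (Fin m) (Fin m) ℂ →L[ℂ] ℂ :=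
  LinearMap.toContinuousLinearMap (Matrix.entryLinearMap ℂ ℂ i j)

lemma en_apply {m : ℕ} (i j : Fin m) (M : Matrix (Fin m) (Fin m) ℂ) : en i j M = M i j := rfl

lemma en_le {m : ℕ} (i j : Fin m) (M : Matrix (Fin m) (Fin m) ℂ) : ‖M i j‖ ≤ 1 * ‖M‖ := by
  rw [one_mul, Matrix.linfty_opNorm_def, ← coe_nnnorm, NNReal.coe_le_coe]
  exact (Finset.single_le_sum (f := fun j => ‖M i j‖₊) (fun _ _ => zero_le)
    (Finset.mem_univ j)).trans
    (Finset.le_sup (f := fun i => ∑ j, ‖M i j‖₊) (Finset.mem_univ i))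

/-- polynomial growth -/
def PB {E : Type*} [NormedAddCommGroup E] (f : ℂ → ℂ → E) (t₀ : ℂ) : Prop :=
  ∃ (A : ℝ) (ρ : ℕ), ∀ᶠ t in 𝓝 t₀, ∀ y, ‖f t y‖ ≤ A * (1 + ‖y‖) ^ ρ

/-- finite order -/
def FO {E : Type*} [NormedAddCommGroup E] (f : ℂ → ℂ → E) (t₀ : ℂ) : Prop :=
  ∃ (A : ℝ) (ρ : ℕ), ∀ᶠ t in 𝓝 t₀, ∀ y, ‖f t y‖ ≤ Real.exp (A * (1 + ‖y‖) ^ ρ)

variable {E : Type*} [NormedAddCommGroup E] {t₀ : ℂ}

lemma grow {A : ℝ} {ρ : ℕ} {B : ℝ} {σ : ℕ} {y : ℂ} (h : A ≤ B) (hB : 0 ≤ B) (h' : ρ ≤ σ) :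
    A * (1 + ‖y‖) ^ ρ ≤ B * (1 + ‖y‖) ^ σ := by
  have h1 : (1 : ℝ) ≤ 1 + ‖y‖ := by linarith [norm_nonneg y]
  exact mul_le_mul h (pow_le_pow_right₀ h1 h') (by positivity) hB

lemma PB.add {f g : ℂ → ℂ → E} (hf : PB f t₀) (hg : PB g t₀) :
    PB (fun t y => f t y + g t y) t₀ := by
  obtain ⟨A, ρ, h⟩ := hf
  obtain ⟨B, σ, h'⟩ := hg
  refine ⟨|A| + |B|, ρ + σ, ?_⟩
  filter_upwards [h, h'] with t ht ht' y
  have h1 : A * (1 + ‖y‖) ^ ρ ≤ |A| * (1 + ‖y‖) ^ (ρ + σ) :=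
    grow (le_abs_self A) (abs_nonneg A) (by omega)
  have h2 : B * (1 + ‖y‖) ^ σ ≤ |B| * (1 + ‖y‖) ^ (ρ + σ) :=
    grow (le_abs_self B) (abs_nonneg B) (by omega)
  have := norm_add_le (f t y) (g t y)
  linarith [ht y, ht' y]

lemma PB.sum {ι : Type*} (s : Finset ι) {f : ι → ℂ → ℂ → E} (h : ∀ i ∈ s, PB (f i) t₀) :
    PB (fun t y => ∑ i ∈ s, f i t y) t₀ := by
  classical
  induction s using Finset.induction_on with
  | empty => exact ⟨0, 0, by simp⟩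
  | insert i s hi ih =>
    have := (h i (Finset.mem_insert_self i s)).add
      (ih fun j hj => h j (Finset.mem_insert_of_mem hj))
    simpa only [Finset.sum_insert hi] using this

lemma PB.smulc [NormedSpace ℂ E] {f : ℂ → ℂ → ℂ} (hf : PB f t₀) (v : E) :
    PB (fun t y => f t y • v) t₀ := by
  obtain ⟨A, ρ, h⟩ := hf
  refine ⟨A * ‖v‖, ρ, ?_⟩
  filter_upwards [h] with t ht y
  rw [norm_smul]
  have := mul_le_mul_of_nonneg_right (ht y) (norm_nonneg v)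
  linarith

lemma PB.csmul [NormedSpace ℂ E] {f : ℂ → ℂ → E} (hf : PB f t₀) (a : ℂ) :
    PB (fun t y => a • f t y) t₀ := by
  obtain ⟨A, ρ, h⟩ := hf
  refine ⟨‖a‖ * A, ρ, ?_⟩
  filter_upwards [h] with t ht y
  rw [norm_smul]
  have := mul_le_mul_of_nonneg_left (ht y) (norm_nonneg a)
  linarith

lemma PB.const (v : E) : PB (fun _ _ => v) t₀ := ⟨‖v‖, 0, by simp⟩

lemma PB.id : PB (fun _ y => y) t₀ := ⟨1, 1, by simp⟩

lemma PB.fo {f : ℂ → ℂ → E} (hf : PB f t₀) : FO f t₀ := by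
  obtain ⟨A, ρ, h⟩ := hf
  refine ⟨A, ρ, ?_⟩
  filter_upwards [h] with t ht y
  have := Real.add_one_le_exp (A * (1 + ‖y‖) ^ ρ)
  linarith [ht y]

lemma FO.add {f g : ℂ → ℂ → E} (hf : FO f t₀) (hg : FO g t₀) :
    FO (fun t y => f t y + g t y) t₀ := by
  obtain ⟨A, ρ, h⟩ := hf
  obtain ⟨B, σ, h'⟩ := hg
  refine ⟨|A| + |B| + 1, ρ + σ, ?_⟩
  filter_upwards [h, h'] with t ht ht' y
  have h1 : A * (1 + ‖y‖) ^ ρ ≤ (|A| + |B|) * (1 + ‖y‖) ^ (ρ + σ) :=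
    grow (by linarith [le_abs_self A, abs_nonneg B]) (by positivity) (by omega)
  have h2 : B * (1 + ‖y‖) ^ σ ≤ (|A| + |B|) * (1 + ‖y‖) ^ (ρ + σ) :=
    grow (by linarith [le_abs_self B, abs_nonneg A]) (by positivity) (by omega)
  have h3 : (1 : ℝ) ≤ (1 + ‖y‖) ^ (ρ + σ) := one_le_pow₀ (by linarith [norm_nonneg y])
  have h4 : Real.exp ((|A| + |B| + 1) * (1 + ‖y‖) ^ (ρ + σ)) ≥
      2 * Real.exp ((|A| + |B|) * (1 + ‖y‖) ^ (ρ + σ)) := by
    have e : (|A| + |B| + 1) * (1 + ‖y‖) ^ (ρ + σ) =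
      (1 + ‖y‖) ^ (ρ + σ) + (|A| + |B|) * (1 + ‖y‖) ^ (ρ + σ) := by ring
    rw [e, Real.exp_add]
    have := Real.add_one_le_exp ((1 + ‖y‖) ^ (ρ + σ))
    exact mul_le_mul_of_nonneg_right (by linarith) (Real.exp_pos _).le
  have := norm_add_le (f t y) (g t y)
  linarith [ht y, ht' y, Real.exp_le_exp.2 h1, Real.exp_le_exp.2 h2]

lemma FO.sum {ι : Type*} (s : Finset ι) {f : ι → ℂ → ℂ → E} (h : ∀ i ∈ s, FO (f i) t₀) :
    FO (fun t y => ∑ i ∈ s, f i t y) t₀ := by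
  classical
  induction s using Finset.induction_on with
  | empty => exact ⟨0, 0, by simp⟩
  | insert i s hi ih =>
    have := (h i (Finset.mem_insert_self i s)).add
      (ih fun j hj => h j (Finset.mem_insert_of_mem hj))
    simpa only [Finset.sum_insert hi] using this

lemma FO.bd {F : Type*} [NormedAddCommGroup F] {f : ℂ → ℂ → E} {g : ℂ → ℂ → F}
    (hf : FO f t₀) {C : ℝ} (hg : ∀ t y, ‖g t y‖ ≤ C * ‖f t y‖) : FO g t₀ := by
  obtain ⟨A, ρ, h⟩ := hf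
  refine ⟨|A| + |C|, ρ, ?_⟩
  filter_upwards [h] with t ht y
  have h1 : A * (1 + ‖y‖) ^ ρ ≤ |A| * (1 + ‖y‖) ^ ρ :=
    grow (le_abs_self A) (abs_nonneg A) le_rfl
  have h3 : (1 : ℝ) ≤ (1 + ‖y‖) ^ ρ := one_le_pow₀ (by linarith [norm_nonneg y])
  have h2 : |C| ≤ Real.exp (|C| * (1 + ‖y‖) ^ ρ) := by
    have := Real.add_one_le_exp (|C| * (1 + ‖y‖) ^ ρ)
    nlinarith [abs_nonneg C]
  have e : (|A| + |C|) * (1 + ‖y‖) ^ ρ = |C| * (1 + ‖y‖) ^ ρ + |A| * (1 + ‖y‖) ^ ρ := by ring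
  rw [e, Real.exp_add]
  calc ‖g t y‖ ≤ C * ‖f t y‖ := hg t y
    _ ≤ |C| * ‖f t y‖ := mul_le_mul_of_nonneg_right (le_abs_self C) (norm_nonneg _)
    _ ≤ Real.exp (|C| * (1 + ‖y‖) ^ ρ) * Real.exp (|A| * (1 + ‖y‖) ^ ρ) :=
      mul_le_mul h2 ((ht y).trans (Real.exp_le_exp.2 h1)) (norm_nonneg _) (Real.exp_pos _).le

lemma FO.mulr {R : Type*} [NormedRing R] {f g : ℂ → ℂ → R} (hf : FO f t₀) (hg : FO g t₀) :
    FO (fun t y => f t y * g t y) t₀ := by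
  obtain ⟨A, ρ, h⟩ := hf
  obtain ⟨B, σ, h'⟩ := hg
  refine ⟨|A| + |B|, ρ + σ, ?_⟩
  filter_upwards [h, h'] with t ht ht' y
  have h1 : A * (1 + ‖y‖) ^ ρ ≤ |A| * (1 + ‖y‖) ^ (ρ + σ) :=
    grow (le_abs_self A) (by positivity) (by omega)
  have h2 : B * (1 + ‖y‖) ^ σ ≤ |B| * (1 + ‖y‖) ^ (ρ + σ) :=
    grow (le_abs_self B) (by positivity) (by omega)
  rw [add_mul, Real.exp_add]
  exact (norm_mul_le _ _).trans (mul_le_mul ((ht y).trans (Real.exp_le_exp.2 h1))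
    ((ht' y).trans (Real.exp_le_exp.2 h2)) (norm_nonneg _) (Real.exp_pos _).le)

lemma FO.powr {R : Type*} [NormedRing R] {f : ℂ → ℂ → R} (hf : FO f t₀) (j : ℕ) :
    FO (fun t y => f t y ^ j) t₀ := by
  induction j with
  | zero => simpa only [pow_zero] using (PB.const (1 : R)).fo
  | succ j ih => simpa only [pow_succ] using ih.mulr hf

lemma PB.expm {m : ℕ} {f : ℂ → ℂ → Matrix (Fin (m + 1)) (Fin (m + 1)) ℂ} (hf : PB f t₀) :
    FO (fun t y => NormedSpace.exp (f t y)) t₀ := by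
  obtain ⟨A, ρ, h⟩ := hf
  refine ⟨A, ρ, ?_⟩
  filter_upwards [h] with t ht y
  exact (norm_exp_le _).trans (Real.exp_le_exp.2 (ht y))

lemma FO.smulf [NormedSpace ℂ E] {f : ℂ → ℂ → E} (hf : FO f t₀) {c : ℂ → ℂ}
    (hc : ContinuousAt c t₀) : FO (fun t y => c t • f t y) t₀ := by
  obtain ⟨A, ρ, h⟩ := hf
  refine ⟨|A| + (‖c t₀‖ + 1), ρ, ?_⟩
  have h0 : ∀ᶠ t in 𝓝 t₀, ‖c t‖ < ‖c t₀‖ + 1 :=
    hc.norm.eventually_lt continuousAt_const (by linarith)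
  filter_upwards [h, h0] with t ht ht0 y
  have h1 : A * (1 + ‖y‖) ^ ρ ≤ |A| * (1 + ‖y‖) ^ ρ :=
    grow (le_abs_self A) (abs_nonneg A) le_rfl
  have h3 : (1 : ℝ) ≤ (1 + ‖y‖) ^ ρ := one_le_pow₀ (by linarith [norm_nonneg y])
  have h2 : ‖c t‖ ≤ Real.exp ((‖c t₀‖ + 1) * (1 + ‖y‖) ^ ρ) := by
    have := Real.add_one_le_exp ((‖c t₀‖ + 1) * (1 + ‖y‖) ^ ρ)
    nlinarith [norm_nonneg (c t₀)]
  have e : (|A| + (‖c t₀‖ + 1)) * (1 + ‖y‖) ^ ρ =
    (‖c t₀‖ + 1) * (1 + ‖y‖) ^ ρ + |A| * (1 + ‖y‖) ^ ρ := by ring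
  rw [e, Real.exp_add, norm_smul]
  exact mul_le_mul h2 ((ht y).trans (Real.exp_le_exp.2 h1)) (norm_nonneg _) (Real.exp_pos _).le

/-- analytic on `U × ℂ` and of finite order -/
def Gd (U : Set ℂ) (f : ℂ → ℂ → ℂ) : Prop :=
  AnalyticOnNhd ℂ (fun p : ℂ × ℂ => f p.1 p.2) (U ×ˢ univ) ∧ ∀ t₀ ∈ U, FO f t₀

lemma Gd.mv {U : Set ℂ} {σ : Type*} {f : σ → ℂ → ℂ → ℂ} (hf : ∀ i, Gd U (f i))
    (P : MvPolynomial σ ℂ) : Gd U (fun t y => MvPolynomial.eval (fun i => f i t y) P) := by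
  induction P using MvPolynomial.induction_on with
  | C a =>
    simp only [MvPolynomial.eval_C]
    exact ⟨analyticOnNhd_const, fun t₀ _ => (PB.const a).fo⟩
  | add p q hp hq =>
    simp only [map_add]
    exact ⟨hp.1.add hq.1, fun t₀ h => (hp.2 t₀ h).add (hq.2 t₀ h)⟩
  | mul_X p i hp =>
    simp only [map_mul, MvPolynomial.eval_X]
    exact ⟨hp.1.mul (hf i).1, fun t₀ h => (hp.2 t₀ h).mulr ((hf i).2 t₀ h)⟩

/-- the constant part of the companion matrix -/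
def sh (m : ℕ) : Matrix (Fin (m + 1)) (Fin (m + 1)) ℂ :=
  Matrix.of fun i j => if (j : ℕ) = (i : ℕ) + 1 then 1 else 0

/-- the companion matrix -/
noncomputable def cm {m : ℕ} (k : Fin (m + 1) → ℂ → ℂ → ℂ) (t y : ℂ) :
    Matrix (Fin (m + 1)) (Fin (m + 1)) ℂ :=
  sh m + ∑ j, (-(k j t y)) • Matrix.single (Fin.last m) j (1 : ℂ)

/-- the powers of `z` -/
def pv (m : ℕ) (z : ℂ) : Fin (m + 1) → ℂ := fun i => z ^ (i : ℕ)

lemma pv_ne (m : ℕ) (z : ℂ) : pv m z ≠ 0 := by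
  intro h
  have := congrFun h 0
  simp [pv] at this

lemma cm_eg {m : ℕ} {k : Fin (m + 1) → ℂ → ℂ → ℂ} {t y z : ℂ}
    (h : mpoly (fun j => k j t y) z = 0) : Eg (pv m z) (cm k t y) z := by
  unfold Eg cm
  rw [Matrix.add_mulVec, Matrix.sum_mulVec]
  funext i
  rw [Pi.add_apply, Finset.sum_apply]
  have e1 : (sh m *ᵥ pv m z) i = if (i : ℕ) < m then z ^ ((i : ℕ) + 1) else 0 := by
    simp only [sh, pv, Matrix.mulVec, dotProduct, Matrix.of_apply, ite_mul, one_mul, zero_mul]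
    by_cases hi : (i : ℕ) < m
    · rw [if_pos hi, Finset.sum_eq_single (⟨(i : ℕ) + 1, by omega⟩ : Fin (m + 1))]
      · simp
      · intro j _ hj
        rw [if_neg]
        intro h
        exact hj (Fin.ext h)
      · intro h
        exact absurd (Finset.mem_univ _) h
    · rw [if_neg hi]
      refine Finset.sum_eq_zero fun j _ => ?_
      rw [if_neg]
      have := j.2
      omega
  have e2 : ∀ j : Fin (m + 1), (((-(k j t y)) • Matrix.single (Fin.last m) j (1 : ℂ)) *ᵥ pv m z) i =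
      if i = Fin.last m then -(k j t y * z ^ (j : ℕ)) else 0 := by
    intro j
    rw [Matrix.smul_mulVec, Pi.smul_apply, Matrix.single_mulVec]
    by_cases hi : i = Fin.last m
    · subst hi
      simp [pv]
    · simp [hi]
  rw [e1]
  simp only [e2]
  by_cases hi : i = Fin.last m
  · subst hi
    simp only [Fin.val_last, lt_self_iff_false, if_false, if_true, zero_add,
      Finset.sum_neg_distrib, Pi.smul_apply, smul_eq_mul, pv]
    unfold mpoly at h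
    have : ∑ j : Fin (m + 1), k j t y * z ^ (j : ℕ) = - z ^ (m + 1) := by
      linear_combination h
    rw [this]
    ring
  · have h1 : (i : ℕ) < m := by
      have := i.2
      have h2 : (i : ℕ) ≠ m := fun h => hi (Fin.ext (by simpa using h))
      omega
    simp only [h1, hi, if_true, if_false, Finset.sum_const_zero, add_zero, Pi.smul_apply,
      smul_eq_mul, pv]
    ring

/-- the value of the exponential polynomial at the companion matrix -/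
noncomputable def Ph {m N : ℕ} (k : Fin (m + 1) → ℂ → ℂ → ℂ) (c : Fin N → ℂ → ℂ)
    (α β : Fin N → Fin 2 → ℕ) (lam t y : ℂ) : Matrix (Fin (m + 1)) (Fin (m + 1)) ℂ :=
  ∑ l, c l t • ((y • (1 : Matrix (Fin (m + 1)) (Fin (m + 1)) ℂ) + lam • cm k t y) ^ α l 0 *
    cm k t y ^ α l 1 *
    NormedSpace.exp (y • (1 : Matrix (Fin (m + 1)) (Fin (m + 1)) ℂ) + lam • cm k t y) ^ β l 0 *
    NormedSpace.exp (cm k t y) ^ β l 1)

lemma Ph_eg {m N : ℕ} {k : Fin (m + 1) → ℂ → ℂ → ℂ} (c : Fin N → ℂ → ℂ)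
    (α β : Fin N → Fin 2 → ℕ) (lam : ℂ) {t y z : ℂ} (h : mpoly (fun j => k j t y) z = 0) :
    Eg (pv m z) (Ph k c α β lam t y)
      (epoly (fun l => c l t) α β (pt2 (y + lam * z) z)) := by
  have h1 := cm_eg h
  have h2 : Eg (pv m z) (y • (1 : Matrix (Fin (m + 1)) (Fin (m + 1)) ℂ) + lam • cm k t y)
      (y + lam * z) := by
    have := (Eg.one (v := pv m z)).smul y
    rw [mul_one] at this
    exact this.add (h1.smul lam)
  unfold Ph epoly
  refine Eg.sum _ fun l _ => ?_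
  refine Eg.smul ?_ _
  have e0 : pt2 (y + lam * z) z 0 = y + lam * z := rfl
  have e1 : pt2 (y + lam * z) z 1 = z := rfl
  rw [e0, e1]
  exact (((h2.pow _).mul (h1.pow _)).mul (h2.exp.pow _)).mul (h1.exp.pow _)

lemma cm_an {m : ℕ} {U : Set ℂ} {k : Fin (m + 1) → ℂ → ℂ → ℂ}
    (hk : ∀ j, AnalyticOnNhd ℂ (fun p : ℂ × ℂ => k j p.1 p.2) (U ×ˢ univ)) :
    AnalyticOnNhd ℂ (fun p : ℂ × ℂ => cm k p.1 p.2) (U ×ˢ univ) := by
  intro p hp
  unfold cm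
  refine analyticAt_const.add (Finset.analyticAt_fun_sum _ fun j _ => ?_)
  exact (hk j p hp).neg.smul analyticAt_const

lemma cm_pb {m : ℕ} {k : Fin (m + 1) → ℂ → ℂ → ℂ} {t₀ : ℂ} (hk : ∀ j, PB (k j) t₀) :
    PB (cm k) t₀ := by
  unfold cm
  refine (PB.const (sh m)).add (PB.sum _ fun j _ => PB.smulc ?_ _)
  obtain ⟨A, ρ, h⟩ := hk j
  refine ⟨A, ρ, ?_⟩
  filter_upwards [h] with t ht y
  rw [norm_neg]
  exact ht y

lemma Ph_an {m N : ℕ} {U : Set ℂ} {k : Fin (m + 1) → ℂ → ℂ → ℂ}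
    (hk : ∀ j, AnalyticOnNhd ℂ (fun p : ℂ × ℂ => k j p.1 p.2) (U ×ˢ univ)) {c : Fin N → ℂ → ℂ}
    (hc : ∀ l, AnalyticOnNhd ℂ (c l) U) (α β : Fin N → Fin 2 → ℕ) (lam : ℂ) :
    AnalyticOnNhd ℂ (fun p : ℂ × ℂ => Ph k c α β lam p.1 p.2) (U ×ˢ univ) := by
  intro p hp
  have h1 : AnalyticAt ℂ (fun p : ℂ × ℂ => cm k p.1 p.2) p := cm_an hk p hp
  have h2 : AnalyticAt ℂ (fun p : ℂ × ℂ =>
      p.2 • (1 : Matrix (Fin (m + 1)) (Fin (m + 1)) ℂ) + lam • cm k p.1 p.2) p :=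
    (AnalyticAt.fun_smul analyticAt_snd analyticAt_const).fun_add
      (AnalyticAt.fun_smul analyticAt_const h1)
  unfold Ph
  refine Finset.analyticAt_fun_sum _ fun l _ => ?_
  have h3 : AnalyticAt ℂ (fun p : ℂ × ℂ => c l p.1) p :=
    AnalyticAt.comp (g := c l) (f := Prod.fst) (hc l p.1 hp.1) analyticAt_fst
  refine h3.smul ?_
  refine ((((h2.pow _).mul (h1.pow _)).mul ?_).mul ?_)
  · exact AnalyticAt.pow (AnalyticAt.comp (g := NormedSpace.exp) (NormedSpace.exp_analytic _) h2) _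
  · exact AnalyticAt.pow (AnalyticAt.comp (g := NormedSpace.exp) (NormedSpace.exp_analytic _) h1) _

lemma Ph_fo {m N : ℕ} {k : Fin (m + 1) → ℂ → ℂ → ℂ} {t₀ : ℂ} (hk : ∀ j, PB (k j) t₀)
    {c : Fin N → ℂ → ℂ} (hc : ∀ l, ContinuousAt (c l) t₀) (α β : Fin N → Fin 2 → ℕ) (lam : ℂ) :
    FO (Ph k c α β lam) t₀ := by
  have h1 : PB (fun t y => cm k t y) t₀ := cm_pb hk
  have h2 : PB (fun t y =>
      y • (1 : Matrix (Fin (m + 1)) (Fin (m + 1)) ℂ) + lam • cm k t y) t₀ :=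
    (PB.id.smulc _).add (h1.csmul lam)
  unfold Ph
  refine FO.sum _ fun l _ => FO.smulf ?_ (hc l)
  exact (((h2.fo.powr _).mulr (h1.fo.powr _)).mulr (h2.expm.powr _)).mulr (h1.expm.powr _)

lemma Ph_gd {m N : ℕ} {U : Set ℂ} {k : Fin (m + 1) → ℂ → ℂ → ℂ}
    (hk : ∀ j, AnalyticOnNhd ℂ (fun p : ℂ × ℂ => k j p.1 p.2) (U ×ˢ univ))
    (hkg : ∀ j, ∀ t₀ ∈ U, PB (k j) t₀) {c : Fin N → ℂ → ℂ}
    (hc : ∀ l, AnalyticOnNhd ℂ (c l) U) (α β : Fin N → Fin 2 → ℕ) (lam : ℂ) (i j : Fin (m + 1)) :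
    Gd U (fun t y => Ph k c α β lam t y i j) := by
  constructor
  · intro p hp
    have h1 : AnalyticAt ℂ (en i j) (Ph k c α β lam p.1 p.2) := (en i j).analyticAt _
    exact AnalyticAt.comp (g := en i j) (f := fun p : ℂ × ℂ => Ph k c α β lam p.1 p.2) h1
      (Ph_an hk hc α β lam p hp)
  · intro t₀ ht₀
    exact (Ph_fo (fun j => hkg j t₀ ht₀) (fun l => (hc l t₀ ht₀).continuousAt) α β lam).bd
      (C := 1) fun t y => en_le i j (Ph k c α β lam t y)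

end Aux

theorem norm2 {U : Set ℂ} (hU : IsOpen U) {n : ℕ} {k : Fin n → ℂ → ℂ → ℂ}
    (hk : ∀ j, AnalyticOnNhd ℂ (fun p : ℂ × ℂ => k j p.1 p.2) (U ×ˢ univ))
    (hkg : ∀ j, ∀ t₀ ∈ U, ∃ (A : ℝ) (ρ : ℕ), ∀ᶠ t in 𝓝 t₀, ∀ y, ‖k j t y‖ ≤ A * (1 + ‖y‖) ^ ρ)
    {N : ℕ} {c : Fin N → ℂ → ℂ} (hc : ∀ l, AnalyticOnNhd ℂ (c l) U) (α β : Fin N → Fin 2 → ℕ)
    (lam : ℂ) :
    ∃ ν : ℂ → ℂ → ℂ, AnalyticOnNhd ℂ (fun p : ℂ × ℂ => ν p.1 p.2) (U ×ˢ univ) ∧
      (∀ t₀ ∈ U, ∃ (A : ℝ) (ρ : ℕ), ∀ᶠ t in 𝓝 t₀, ∀ y, ‖ν t y‖ ≤ Real.exp (A * (1 + ‖y‖) ^ ρ)) ∧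
      (U.Nonempty → ∃ t ∈ U, ∃ y, ν t y ≠ 0) ∧
      ∀ t ∈ U, ∀ y₁ y₂ : ℂ, mpoly (fun j => k j t y₁) y₂ = 0 →
        epoly (fun l => c l t) α β (pt2 (y₁ + lam * y₂) y₂) = 0 →
        (y₁, y₂) ∈ closure {y : ℂ × ℂ | mpoly (fun j => k j t y.1) y.2 = 0 ∧
          epoly (fun l => c l t) α β (pt2 (y.1 + lam * y.2) y.2) ≠ 0} → ν t y₁ = 0 := by
  classical
  rcases U.eq_empty_or_nonempty with rfl | hUne
  · exact ⟨fun _ _ => 1, analyticOnNhd_const, by simp, by simp, by simp⟩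
  rcases n with _ | m
  · refine ⟨fun _ _ => 1, analyticOnNhd_const, ?_, ?_, ?_⟩
    · intro t₀ _
      exact ⟨0, 0, by simp⟩
    · rintro ⟨t, ht⟩
      exact ⟨t, ht, 0, one_ne_zero⟩
    · intro t ht y₁ y₂ h
      simp [mpoly] at h
  -- the coefficients of the characteristic polynomial
  set e : ℕ → ℂ → ℂ → ℂ := fun j t y => (Ph k c α β lam t y).charpoly.coeff j with he
  have hGd : ∀ j, Gd U (e j) := by
    intro j
    have h1 : ∀ i : Fin (m + 1) × Fin (m + 1), Gd U (fun t y => Ph k c α β lam t y i.1 i.2) :=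
      fun i => Ph_gd hk hkg hc α β lam i.1 i.2
    have h2 := Gd.mv h1 ((Matrix.charpoly.univ ℂ (Fin (m + 1))).coeff j)
    have h3 : (fun t y => MvPolynomial.eval (fun i : Fin (m + 1) × Fin (m + 1) =>
        Ph k c α β lam t y i.1 i.2) ((Matrix.charpoly.univ ℂ (Fin (m + 1))).coeff j)) = e j := by
      funext t y
      have := Matrix.charpoly.univ_coeff_eval₂Hom (Fin (m + 1)) (RingHom.id ℂ)
        (fun i : Fin (m + 1) × Fin (m + 1) => Ph k c α β lam t y i.1 i.2) j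
      exact this
    rw [h3] at h2
    exact h2
  have hdeg : ∀ t y, (Ph k c α β lam t y).charpoly.natDegree = m + 1 := by
    intro t y
    rw [Matrix.charpoly_natDegree_eq_dim, Fintype.card_fin]
  have htop : ∀ t y, e (m + 1) t y = 1 := by
    intro t y
    have := (Ph k c α β lam t y).charpoly_monic.coeff_natDegree
    rw [hdeg] at this
    exact this
  have hex : ∃ a, ∃ t ∈ U, ∃ y, e a t y ≠ 0 := by
    obtain ⟨t, ht⟩ := hUne
    exact ⟨m + 1, t, ht, 0, by rw [htop]; exact one_ne_zero⟩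
  set a := Nat.find hex with ha
  have hlow : ∀ j < a, ∀ t ∈ U, ∀ y, e j t y = 0 := by
    intro j hj t ht y
    by_contra h
    exact Nat.find_min hex hj ⟨t, ht, y, h⟩
  have ham : a ≤ m + 1 := by
    rw [ha]
    refine Nat.find_min' hex ?_
    obtain ⟨t, ht⟩ := hUne
    exact ⟨t, ht, 0, by rw [htop]; exact one_ne_zero⟩
  refine ⟨e a, (hGd a).1, (hGd a).2, fun _ => Nat.find_spec hex, ?_⟩
  intro t ht y₁ y₂ hm0 hF0 hcl
  -- the reduced polynomial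
  set F : ℂ × ℂ → ℂ := fun y => epoly (fun l => c l t) α β (pt2 (y.1 + lam * y.2) y.2) with hF
  set R : ℂ × ℂ → ℂ := fun y => ∑ j ∈ Finset.Ico a (m + 2), e j t y.1 * F y ^ (j - a) with hR
  have hFc : Continuous F := by
    rw [hF]
    unfold epoly pt2
    simp only [Matrix.cons_val_zero, Matrix.cons_val_one]
    fun_prop
  have hec : ∀ j, Continuous (fun y : ℂ × ℂ => e j t y.1) := by
    intro j
    rw [continuous_iff_continuousAt]
    intro y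
    have h1 : ContinuousAt (fun p : ℂ × ℂ => e j p.1 p.2) (t, y.1) :=
      ((hGd j).1 (t, y.1) ⟨ht, mem_univ _⟩).continuousAt
    exact ContinuousAt.comp (g := fun p : ℂ × ℂ => e j p.1 p.2)
      (f := fun y : ℂ × ℂ => (t, y.1)) h1 (by fun_prop)
  have hRc : Continuous R := by
    rw [hR]
    exact continuous_finsetSum _ fun j _ => (hec j).mul (hFc.pow _)
  have hsub : {y : ℂ × ℂ | mpoly (fun j => k j t y.1) y.2 = 0 ∧
      epoly (fun l => c l t) α β (pt2 (y.1 + lam * y.2) y.2) ≠ 0} ⊆ {y | R y = 0} := by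
    rintro y ⟨h1, h2⟩
    have h3 : Eg (pv m y.2) (Ph k c α β lam t y.1) (F y) := Ph_eg c α β lam h1
    have h4 : (Ph k c α β lam t y.1).charpoly.eval (F y) = 0 := by
      rw [Matrix.eval_charpoly]
      refine Matrix.exists_mulVec_eq_zero_iff.1 ⟨pv m y.2, pv_ne m y.2, ?_⟩
      rw [Matrix.sub_mulVec, h3]
      simp
    rw [Polynomial.eval_eq_sum_range, hdeg] at h4
    have h5 : ∑ j ∈ Finset.range (m + 1 + 1), e j t y.1 * F y ^ j = F y ^ a * R y := by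
      rw [hR]
      simp only
      rw [Finset.mul_sum, Finset.range_eq_Ico,
        ← Finset.sum_Ico_consecutive _ (Nat.zero_le a) (by omega : a ≤ m + 1 + 1)]
      have h6 : ∑ j ∈ Finset.Ico 0 a, e j t y.1 * F y ^ j = 0 := by
        refine Finset.sum_eq_zero fun j hj => ?_
        rw [hlow j (Finset.mem_Ico.1 hj).2 t ht, zero_mul]
      rw [h6, zero_add]
      refine Finset.sum_congr rfl fun j hj => ?_
      have h7 : a ≤ j := (Finset.mem_Ico.1 hj).1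
      have h8 : F y ^ j = F y ^ a * F y ^ (j - a) := by
        rw [← pow_add, Nat.add_sub_cancel' h7]
      rw [h8]
      ring
    rw [h5] at h4
    exact (mul_eq_zero.1 h4).resolve_left (pow_ne_zero _ h2)
  have hcl' : IsClosed {y : ℂ × ℂ | R y = 0} := isClosed_eq hRc continuous_const
  have h6 : R (y₁, y₂) = 0 := (hcl'.closure_subset_iff.2 hsub) hcl
  have hFz : F (y₁, y₂) = 0 := hF0
  rw [hR] at h6
  simp only [hFz] at h6
  rw [Finset.sum_eq_single a] at h6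
  · simpa using h6
  · intro j hj hja
    have := Finset.mem_Ico.1 hj
    rw [zero_pow (by omega), mul_zero]
  · intro h
    exact absurd (Finset.mem_Ico.2 ⟨le_rfl, by omega⟩) h

end Pool.Agent.T2H96.TW
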