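import Pool.Agent.T2H96.TW.E2
import Pool.Agent.T2H96.TW.L2
import Pool.Agent.T2H96.TW.N2
import Pool.Agent.T2H96.TW.I2
import Pool.Agent.T2H96.XS.Poly

/-!
Systems of two exponential polynomial equations in two unknowns: counting the solutions where the leading coefficients
of the algebraic dependencies do not vanish.
-/

set_option autoImplicit false

namespace Pool.Agent.T2H96.TW

open Set Filter Topology Metric
open scoped Cardinal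
open Pool.Agent.TH735.QM Pool.Agent.TH735.FO Pool.Agent.T2H96.XS

/-- growth at most like a power of `w`, locally uniformly at `t₀` -/
def Gw {X : Type} (w : X → ℝ) (t₀ : ℂ) (f : ℂ → X → ℂ) : Prop :=
  ∃ (A : ℝ) (ρ : ℕ), ∀ᶠ t in 𝓝 t₀, ∀ x, ‖f t x‖ ≤ A * w x ^ ρ

section Gw

variable {X : Type} {w : X → ℝ} {t₀ : ℂ} {f g : ℂ → X → ℂ}

theorem Gw.nonneg (hw : ∀ x, 1 ≤ w x) (h : Gw w t₀ f) :
    ∃ (A : ℝ) (ρ : ℕ), 0 ≤ A ∧ ∀ᶠ t in 𝓝 t₀, ∀ x, ‖f t x‖ ≤ A * w x ^ ρ := by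
  obtain ⟨A, ρ, h⟩ := h
  refine ⟨|A|, ρ, abs_nonneg A, ?_⟩
  filter_upwards [h] with t ht x
  have h1 : 0 ≤ w x ^ ρ := by
    have := hw x
    positivity
  exact (ht x).trans (mul_le_mul_of_nonneg_right (le_abs_self A) h1)

theorem Gw.mul (hw : ∀ x, 1 ≤ w x) (hf : Gw w t₀ f) (hg : Gw w t₀ g) :
    Gw w t₀ (fun t x => f t x * g t x) := by
  obtain ⟨A, ρ, hA, h⟩ := hf.nonneg hw
  obtain ⟨B, σ, hB, h'⟩ := hg.nonneg hw
  refine ⟨A * B, ρ + σ, ?_⟩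
  filter_upwards [h, h'] with t h1 h2 x
  have hx : 0 ≤ w x := by linarith [hw x]
  rw [norm_mul, pow_add]
  calc ‖f t x‖ * ‖g t x‖ ≤ (A * w x ^ ρ) * (B * w x ^ σ) :=
        mul_le_mul (h1 x) (h2 x) (norm_nonneg _) (by positivity)
    _ = _ := by ring

theorem Gw.add (hw : ∀ x, 1 ≤ w x) (hf : Gw w t₀ f) (hg : Gw w t₀ g) :
    Gw w t₀ (fun t x => f t x + g t x) := by
  obtain ⟨A, ρ, hA, h⟩ := hf.nonneg hw
  obtain ⟨B, σ, hB, h'⟩ := hg.nonneg hw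
  refine ⟨A + B, ρ + σ, ?_⟩
  filter_upwards [h, h'] with t h1 h2 x
  have h3 := pow_up (hw x) le_rfl hA (Nat.le_add_right ρ σ)
  have h4 := pow_up (hw x) le_rfl hB (Nat.le_add_left σ ρ)
  calc ‖f t x + g t x‖ ≤ ‖f t x‖ + ‖g t x‖ := norm_add_le _ _
    _ ≤ A * w x ^ (ρ + σ) + B * w x ^ (ρ + σ) := add_le_add ((h1 x).trans h3) ((h2 x).trans h4)
    _ = _ := by ring

theorem Gw.coeff {c : ℂ → ℂ} (hc : ContinuousAt c t₀) :
    Gw w t₀ (fun t _ => c t) := by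
  refine ⟨‖c t₀‖ + 1, 0, ?_⟩
  have h1 : ∀ᶠ t in 𝓝 t₀, ‖c t‖ < ‖c t₀‖ + 1 :=
    hc.norm.eventually (gt_mem_nhds (by linarith))
  filter_upwards [h1] with t ht x
  rw [pow_zero, mul_one]
  exact ht.le

theorem Gw.of_le (h : ∀ t x, ‖f t x‖ ≤ w x) : Gw w t₀ f :=
  ⟨1, 1, Filter.Eventually.of_forall fun t x => by rw [one_mul, pow_one]; exact h t x⟩

theorem Gw.pow (hw : ∀ x, 1 ≤ w x) (hf : Gw w t₀ f) (k : ℕ) : Gw w t₀ (fun t x => f t x ^ k) := by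
  induction k with
  | zero =>
    simp only [pow_zero]
    exact Gw.coeff (c := fun _ => (1 : ℂ)) continuousAt_const
  | succ k ih =>
    simp only [pow_succ]
    exact ih.mul hw hf

theorem Gw.sum (hw : ∀ x, 1 ≤ w x) {ι : Type} (s : Finset ι) {F : ι → ℂ → X → ℂ}
    (h : ∀ i ∈ s, Gw w t₀ (F i)) : Gw w t₀ (fun t x => ∑ i ∈ s, F i t x) := by
  classical
  induction s using Finset.induction_on with
  | empty =>
    simp only [Finset.sum_empty]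
    exact Gw.coeff (c := fun _ => (0 : ℂ)) continuousAt_const
  | insert i s hi ih =>
    simp only [Finset.sum_insert hi]
    exact (h i (Finset.mem_insert_self i s)).add hw
      (ih fun j hj => h j (Finset.mem_insert_of_mem hj))

/-- a common bound for finitely many functions -/
theorem Gw.common (hw : ∀ x, 1 ≤ w x) {ι : Type} [Finite ι] {F : ι → ℂ → X → ℂ}
    (h : ∀ i, Gw w t₀ (F i)) :
    ∃ (A : ℝ) (ρ : ℕ), 1 ≤ A ∧ 1 ≤ ρ ∧ ∀ᶠ t in 𝓝 t₀, ∀ x i, ‖F i t x‖ ≤ A * w x ^ ρ := by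
  classical
  have := Fintype.ofFinite ι
  choose A ρ hA using fun i => h i
  refine ⟨∑ i, |A i| + 1, ∑ i, ρ i + 1, ?_, by omega, ?_⟩
  · have : 0 ≤ ∑ i, |A i| := Finset.sum_nonneg fun i _ => abs_nonneg _
    linarith
  · filter_upwards [Filter.eventually_all.2 hA] with t ht x i
    have h2 : 0 ≤ ∑ i, |A i| := Finset.sum_nonneg fun i _ => abs_nonneg _
    refine (ht i x).trans (pow_up (hw x) ?_ (by linarith) ?_)
    · have : |A i| ≤ ∑ i, |A i| :=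
        Finset.single_le_sum (f := fun i => |A i|) (fun i _ => abs_nonneg _) (Finset.mem_univ i)
      linarith [le_abs_self (A i)]
    · have : ρ i ≤ ∑ i, ρ i :=
        Finset.single_le_sum (f := fun i => ρ i) (fun i _ => Nat.zero_le _) (Finset.mem_univ i)
      omega

end Gw

theorem one_le_w1 (x : Pt 2) : (1 : ℝ) ≤ 1 + ‖x‖ := by linarith [norm_nonneg x]

theorem one_le_w2 (x : Pt 2) : (1 : ℝ) ≤ (1 + ‖x‖) * wt x := by
  have h1 := one_le_w1 x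
  have h2 := one_le_wt x
  nlinarith

theorem gw_coord (t₀ : ℂ) (i : Fin 2) : Gw (fun x : Pt 2 => 1 + ‖x‖) t₀ (fun _ x => x i) :=
  Gw.of_le fun _ x => by linarith [norm_le_pi_norm x i]

theorem gw_coord' (t₀ : ℂ) (i : Fin 2) :
    Gw (fun x : Pt 2 => (1 + ‖x‖) * wt x) t₀ (fun _ x => x i) :=
  Gw.of_le fun _ x => by
    have h1 := norm_le_pi_norm x i
    have h2 := one_le_wt x
    have h3 := norm_nonneg x
    nlinarith

theorem gw_exp (t₀ : ℂ) (i : Fin 2) :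
    Gw (fun x : Pt 2 => (1 + ‖x‖) * wt x) t₀ (fun _ x => Complex.exp (x i)) :=
  Gw.of_le fun _ x => by
    have h1 : ‖Complex.exp (x i)‖ ≤ wt x := by
      unfold XS.wt
      rw [← Finset.mul_prod_erase Finset.univ _ (Finset.mem_univ i)]
      have h2 : (1 : ℝ) ≤ ∏ j ∈ Finset.univ.erase i, max 1 ‖Complex.exp (x j)‖ := by
        calc (1 : ℝ) = ∏ _j ∈ Finset.univ.erase i, (1 : ℝ) := by simp
          _ ≤ _ := Finset.prod_le_prod (fun _ _ => zero_le_one) (fun j _ => le_max_left _ _)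
      have h3 : ‖Complex.exp (x i)‖ ≤ max 1 ‖Complex.exp (x i)‖ := le_max_right _ _
      have h4 : 0 ≤ ‖Complex.exp (x i)‖ := norm_nonneg _
      nlinarith
    have h2 := one_le_wt x
    have h3 := norm_nonneg x
    nlinarith

theorem gw_qpoly {t₀ : ℂ} {e : ℕ} {b : Fin e → Fin e → ℂ → ℂ}
    (hb : ∀ i j, ContinuousAt (b i j) t₀) :
    Gw (fun x : Pt 2 => 1 + ‖x‖) t₀ (fun t x => qpoly (fun i j => b i j t) x) := by
  unfold qpoly
  refine Gw.sum one_le_w1 _ fun i _ => Gw.sum one_le_w1 _ fun j _ => ?_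
  exact (Gw.coeff (hb i j)).mul one_le_w1
    (((gw_coord t₀ 0).pow one_le_w1 _).mul one_le_w1 ((gw_coord t₀ 1).pow one_le_w1 _))

theorem gw_epoly {t₀ : ℂ} {N : ℕ} {c : Fin N → ℂ → ℂ} (hc : ∀ l, ContinuousAt (c l) t₀)
    (α β : Fin N → Fin 2 → ℕ) :
    Gw (fun x : Pt 2 => (1 + ‖x‖) * wt x) t₀ (fun t x => epoly (fun l => c l t) α β x) := by
  unfold epoly
  refine Gw.sum one_le_w2 _ fun l _ => ?_
  exact (Gw.coeff (hc l)).mul one_le_w2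
    (((((gw_coord' t₀ 0).pow one_le_w2 _).mul one_le_w2 ((gw_coord' t₀ 1).pow one_le_w2 _)).mul
      one_le_w2 ((gw_exp t₀ 0).pow one_le_w2 _)).mul one_le_w2 ((gw_exp t₀ 1).pow one_le_w2 _))

theorem an_qpoly {U : Set ℂ} {e : ℕ} {b : Fin e → Fin e → ℂ → ℂ}
    (hb : ∀ i j, AnalyticOnNhd ℂ (b i j) U) :
    AnalyticOnNhd ℂ (fun p : ℂ × Pt 2 => qpoly (fun i j => b i j p.1) p.2) (U ×ˢ univ) := by
  rintro ⟨t, x⟩ ⟨ht, -⟩
  have hx : ∀ i : Fin 2, AnalyticAt ℂ (fun p : ℂ × Pt 2 => p.2 i) (t, x) := fun i =>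
    analyticAt_pi_iff.1 (analyticAt_snd (𝕜 := ℂ) (p := ((t, x) : ℂ × Pt 2))) i
  unfold qpoly
  refine Finset.analyticAt_fun_sum _ fun i _ => Finset.analyticAt_fun_sum _ fun j _ => ?_
  have h1 : AnalyticAt ℂ (fun p : ℂ × Pt 2 => b i j p.1) (t, x) :=
    (hb i j t ht).comp (f := fun p : ℂ × Pt 2 => p.1) (x := (t, x)) analyticAt_fst
  exact h1.mul (((hx 0).pow _).mul ((hx 1).pow _))

theorem an_Sy {U : Set ℂ} {N : ℕ} {c : Fin 2 → Fin N → ℂ → ℂ}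
    (hc : ∀ i l, AnalyticOnNhd ℂ (c i l) U) (α β : Fin 2 → Fin N → Fin 2 → ℕ) :
    AnalyticOnNhd ℂ (fun p : ℂ × Pt 2 => Sy c α β p.1 p.2) (U ×ˢ univ) := by
  rintro ⟨t, x⟩ ⟨ht, -⟩
  have hx : ∀ i : Fin 2, AnalyticAt ℂ (fun p : ℂ × Pt 2 => p.2 i) (t, x) := fun i =>
    analyticAt_pi_iff.1 (analyticAt_snd (𝕜 := ℂ) (p := ((t, x) : ℂ × Pt 2))) i
  refine analyticAt_pi_iff.2 fun i => ?_
  show AnalyticAt ℂ (fun p : ℂ × Pt 2 => epoly (fun l => c i l p.1) (α i) (β i) p.2) (t, x)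
  unfold epoly
  refine Finset.analyticAt_fun_sum _ fun l _ => ?_
  have h1 : AnalyticAt ℂ (fun p : ℂ × Pt 2 => c i l p.1) (t, x) :=
    (hc i l t ht).comp (f := fun p : ℂ × Pt 2 => p.1) (x := (t, x)) analyticAt_fst
  exact h1.mul (((((hx 0).pow _).mul ((hx 1).pow _)).mul ((hx 0).cexp.pow _)).mul
    ((hx 1).cexp.pow _))

/-- a nondegenerate solution -/
def NS {N : ℕ} (c : Fin 2 → Fin N → ℂ → ℂ) (α β : Fin 2 → Fin N → Fin 2 → ℕ) (t : ℂ)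
    (x : Pt 2) : Prop := Sy c α β t x = 0 ∧ (pJ (Sy c α β t) x).det ≠ 0

section A

variable {U : Set ℂ} {N : ℕ} {c : Fin 2 → Fin N → ℂ → ℂ} {α β : Fin 2 → Fin N → Fin 2 → ℕ}
  {d e : Fin 2 → ℕ} {b : (v : Fin 2) → Fin (d v + 2) → Fin (e v) → Fin (e v) → ℂ → ℂ}

/-- the product of the leading coefficients -/
noncomputable def Lam (b : (v : Fin 2) → Fin (d v + 2) → Fin (e v) → Fin (e v) → ℂ → ℂ)
    (t : ℂ) (x : Pt 2) : ℂ :=
  qpoly (fun i j => b 0 (Fin.last _) i j t) x * qpoly (fun i j => b 1 (Fin.last _) i j t) x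

theorem ctlA (hU : IsOpen U) (hc : ∀ i l, AnalyticOnNhd ℂ (c i l) U)
    (hb : ∀ v j i i', AnalyticOnNhd ℂ (b v j i i') U)
    (hz : ∀ v, ∀ t ∈ U, ∀ x : Pt 2, Sy c α β t x = 0 → (pJ (Sy c α β t) x).det ≠ 0 →
        ∑ j : Fin (d v + 2), qpoly (fun i i' => b v j i i' t) x *
          Complex.exp (x v) ^ (j : ℕ) = 0) {t₀ : ℂ} (ht₀ : t₀ ∈ U) :
    ∃ R > 0, ball t₀ R ⊆ U ∧ ∃ (A : ℝ) (ρ : ℕ), Ctl (ball t₀ R)
      (fun p : ℂ × Pt 2 => Sy c α β p.1 p.2) (fun p => p.2) (fun p => Lam b p.1 p.2) A ρ := by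
  obtain ⟨A₁, ρ₁, hA₁, hρ₁, h₁⟩ := Gw.common (w := fun x : Pt 2 => (1 + ‖x‖) * wt x) (t₀ := t₀)
    one_le_w2 (F := fun (i : Fin 2) t x => epoly (fun l => c i l t) (α i) (β i) x)
    fun i => gw_epoly (fun l => (hc i l t₀ ht₀).continuousAt) _ _
  obtain ⟨A₂, ρ₂, hA₂, hρ₂, h₂⟩ := Gw.common (w := fun x : Pt 2 => 1 + ‖x‖) (t₀ := t₀)
    one_le_w1 (F := fun (vj : Σ v : Fin 2, Fin (d v + 2)) t x =>
      qpoly (fun i i' => b vj.1 vj.2 i i' t) x)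
    fun vj => gw_qpoly fun i i' => (hb vj.1 vj.2 i i' t₀ ht₀).continuousAt
  obtain ⟨R, hR, hR'⟩ := Metric.eventually_nhds_iff_ball.1
    ((h₁.and h₂).and (hU.mem_nhds ht₀))
  have hsub : ball t₀ R ⊆ U := fun t ht => (hR' t ht).2
  set A := A₁ + (d 0 + d 1 + 3) * (A₂ * A₂) with hA
  set ρ := ρ₁ + (ρ₂ + ρ₂) with hρ
  have hA22 : 1 ≤ A₂ * A₂ := by nlinarith
  have hd0 : (0 : ℝ) ≤ d 0 := Nat.cast_nonneg _
  have hd1 : (0 : ℝ) ≤ d 1 := Nat.cast_nonneg _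
  have hAA1 : A₁ ≤ A := by rw [hA]; nlinarith
  have hAA2 : A₂ * A₂ ≤ A := by rw [hA]; nlinarith
  have hAA3 : (d 0 + d 1 + 3) * (A₂ * A₂) ≤ A := by rw [hA]; nlinarith
  have hA0 : 1 ≤ A := hA22.trans hAA2
  have hA0' : 0 ≤ A := by linarith
  have hco : ∀ t ∈ ball t₀ R, ∀ x : Pt 2, ∀ v j, ‖qpoly (fun i i' => b v j i i' t) x‖ ≤
      A₂ * (1 + ‖x‖) ^ ρ₂ := fun t ht x v j => (hR' t ht).1.2 x ⟨v, j⟩
  refine ⟨R, hR, hsub, A, ρ, ?_⟩
  refine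
    { op := isOpen_ball
      ang := (an_Sy hc α β).mono (prod_mono hsub subset_rfl)
      anE := fun p _ => analyticAt_snd
      anL := ((an_qpoly fun i j => hb 0 _ i j).mul (an_qpoly fun i j => hb 1 _ i j)).mono
        (prod_mono hsub subset_rfl)
      A1 := hA0
      r1 := by omega
      bL := ?_
      bE := ?_
      bp := ?_
      bg := ?_
      bz := ?_ }
  · intro t ht x
    show ‖Lam b t x‖ ≤ _
    unfold Lam
    rw [norm_mul]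
    calc _ ≤ (A₂ * (1 + ‖x‖) ^ ρ₂) * (A₂ * (1 + ‖x‖) ^ ρ₂) :=
          mul_le_mul (hco t ht x 0 _) (hco t ht x 1 _) (norm_nonneg _) (by positivity)
      _ = (A₂ * A₂) * (1 + ‖x‖) ^ (ρ₂ + ρ₂) := by ring
      _ ≤ A * (1 + ‖x‖) ^ ρ := pow_up (one_le_w1 x) hAA2 hA0' (by omega)
  · intro t ht x
    show ‖x‖ ≤ _
    calc ‖x‖ ≤ 1 * (1 + ‖x‖) ^ 1 := by rw [one_mul, pow_one]; linarith
      _ ≤ A * (1 + ‖x‖) ^ ρ := pow_up (one_le_w1 x) hA0 hA0' (by omega)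
  · intro t ht x
    show ‖x‖ ≤ A * (1 + ‖x‖) ^ ρ
    calc ‖x‖ ≤ 1 * (1 + ‖x‖) ^ 1 := by rw [one_mul, pow_one]; linarith
      _ ≤ A * (1 + ‖x‖) ^ ρ := pow_up (one_le_w1 x) hA0 hA0' (by omega)
  · intro t ht x
    show ‖Sy c α β t x‖ ≤ A * ((1 + ‖x‖) * wt x) ^ ρ
    have h0 : 0 ≤ A * ((1 + ‖x‖) * wt x) ^ ρ := by
      have := one_le_w2 x
      positivity
    rw [pi_norm_le_iff_of_nonneg h0]
    intro i
    exact ((hR' t ht).1.1 x i).trans (pow_up (one_le_w2 x) hAA1 hA0' (by omega))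
  · intro t ht x h0 hJ v
    show ‖Lam b t x‖ * ‖Complex.exp (x v)‖ ≤ _
    set K := A₂ * (1 + ‖x‖) ^ ρ₂ with hK
    have hK0 : 0 ≤ K := by positivity
    have h1 := root_bound (d := d v + 1) (by omega)
      (a := fun j => qpoly (fun i i' => b v j i i' t) x) (y := Complex.exp (x v))
      (fun j => hco t ht x v j) (hz v t (hsub ht) x h0 hJ)
    have h2 : ‖Lam b t x‖ ≤ ‖qpoly (fun i i' => b v (Fin.last _) i i' t) x‖ * K := by
      unfold Lam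
      rw [norm_mul]
      fin_cases v
      · exact mul_le_mul_of_nonneg_left (hco t ht x 1 _) (norm_nonneg _)
      · rw [mul_comm]
        exact mul_le_mul_of_nonneg_left (hco t ht x 0 _) (norm_nonneg _)
    have hdv : ((d v + 1 : ℕ) : ℝ) + 1 ≤ d 0 + d 1 + 3 := by
      fin_cases v
      · push_cast
        show (d 0 : ℝ) + 1 + 1 ≤ _
        linarith
      · push_cast
        show (d 1 : ℝ) + 1 + 1 ≤ _
        linarith
    calc ‖Lam b t x‖ * ‖Complex.exp (x v)‖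
        ≤ ‖qpoly (fun i i' => b v (Fin.last _) i i' t) x‖ * K * ‖Complex.exp (x v)‖ :=
          mul_le_mul_of_nonneg_right h2 (norm_nonneg _)
      _ = (‖qpoly (fun i i' => b v (Fin.last _) i i' t) x‖ * ‖Complex.exp (x v)‖) * K := by ring
      _ ≤ ((((d v + 1 : ℕ) : ℝ) + 1) * K) * K := mul_le_mul_of_nonneg_right h1 hK0
      _ ≤ ((d 0 + d 1 + 3) * K) * K := by
          apply mul_le_mul_of_nonneg_right _ hK0
          exact mul_le_mul_of_nonneg_right hdv hK0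
      _ = ((d 0 + d 1 + 3) * (A₂ * A₂)) * (1 + ‖x‖) ^ (ρ₂ + ρ₂) := by rw [hK]; ring
      _ ≤ A * (1 + ‖x‖) ^ ρ := pow_up (one_le_w1 x) hAA3 hA0' (by omega)

theorem countA (hU : IsOpen U) (hUc : IsPreconnected U) (hc : ∀ i l, AnalyticOnNhd ℂ (c i l) U)
    (hb : ∀ v j i i', AnalyticOnNhd ℂ (b v j i i') U)
    (hz : ∀ v, ∀ t ∈ U, ∀ x : Pt 2, Sy c α β t x = 0 → (pJ (Sy c α β t) x).det ≠ 0 →
        ∑ j : Fin (d v + 2), qpoly (fun i i' => b v j i i' t) x *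
          Complex.exp (x v) ^ (j : ℕ) = 0) {Y : ℂ → Pt 2 → Prop} (hY : LQN U Y) (k : ℕ) :
    QmOn U {t | {x | (NS c α β t x ∧ Lam b t x ≠ 0) ∧ Y t x}.encard ≤ k} := by
  refine QmOn.of_local hU hUc (B := ∅) countable_empty ?_
  intro t₀ ht₀ _
  obtain ⟨R, hR, hsub, A, ρ, h⟩ := ctlA hU hc hb hz ht₀
  refine ⟨R, hR, ?_⟩
  have hloc := local_count h (Y := Y) (hY.mono hsub) k
  refine hloc.congr' ?_
  intro t ht
  have hset : {x : Pt 2 | (NS c α β t x ∧ Lam b t x ≠ 0) ∧ Y t x} =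
      {x : Pt 2 | (Sy c α β t x = 0 ∧ Jd (fun p : ℂ × Pt 2 => Sy c α β p.1 p.2) (t, x) ≠ 0 ∧
        Lam b t x ≠ 0) ∧ Y t x} := by
    ext x
    constructor
    · rintro ⟨⟨⟨h1, h2⟩, h3⟩, h4⟩
      exact ⟨⟨h1, h2, h3⟩, h4⟩
    · rintro ⟨⟨h1, h2, h3⟩, h4⟩
      exact ⟨⟨⟨h1, h2⟩, h3⟩, h4⟩
  simp only [Set.mem_ofPred_eq]
  rw [hset]

end A

end Pool.Agent.T2H96.TW
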