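import Pool.Agent.T2H96.TW.Cnt

/-!
Systems of two exponential polynomial equations in two unknowns: counting the solutions on a family of plane
algebraic curves.
-/

set_option autoImplicit false

namespace Pool.Agent.T2H96.TW

open Set Filter Topology Metric
open scoped Cardinal
open Pool.Agent.TH735.QM Pool.Agent.TH735.FO Pool.Agent.T2H96.XS

/-- a plane set with finite fibres of bounded size is a sum of subsets of the line -/
theorem fib_card {n : ℕ} (P : ℂ → ℂ → Prop) (hP : ∀ y, {z | P y z}.encard ≤ n) :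
    #({q | P q.1 q.2} : Set (ℂ × ℂ)) =
      Cardinal.sum fun j : Fin n => #({y | ((j : ℕ) + 1 : ℕ∞) ≤ {z | P y z}.encard} : Set ℂ) := by
  classical
  have hfin : ∀ y, Finite {z // P y z} := fun y => Set.finite_of_encard_le_coe (hP y)
  have hcard : ∀ y, {z | P y z}.encard = (Nat.card {z // P y z} : ℕ) := by
    intro y
    have := hfin y
    exact ENat.card_eq_coe_natCard {z // P y z}
  have hle : ∀ y, Nat.card {z // P y z} ≤ n := by
    intro y
    have := hP y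
    rw [hcard y] at this
    exact_mod_cast this
  have key : ∀ (j : ℕ) y, ((j : ℕ) + 1 : ℕ∞) ≤ {z | P y z}.encard ↔ j < Nat.card {z // P y z} := by
    intro j y
    rw [hcard y]
    constructor
    · intro h
      have h' : ((j + 1 : ℕ) : ℕ∞) ≤ ((Nat.card {z // P y z} : ℕ) : ℕ∞) := by
        push_cast
        exact h
      exact Nat.lt_of_succ_le (Nat.cast_le.1 h')
    · intro h
      have h' : ((j + 1 : ℕ) : ℕ∞) ≤ ((Nat.card {z // P y z} : ℕ) : ℕ∞) :=
        Nat.cast_le.2 (Nat.succ_le_of_lt h)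
      push_cast at h'
      exact h'
  rw [← Cardinal.mk_sigma]
  refine Cardinal.mk_congr ?_
  have e1 : ({q : ℂ × ℂ | P q.1 q.2} : Set (ℂ × ℂ)) ≃ (Σ y : ℂ, {z // P y z}) :=
    { toFun := fun q => ⟨q.1.1, q.1.2, q.2⟩
      invFun := fun s => ⟨(s.1, s.2.1), s.2.2⟩
      left_inv := fun q => rfl
      right_inv := fun s => rfl }
  have e2 : (Σ y : ℂ, {z // P y z}) ≃ (Σ y : ℂ, Fin (Nat.card {z // P y z})) :=
    Equiv.sigmaCongrRight fun y => Finite.equivFin _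
  have e3 : (Σ y : ℂ, Fin (Nat.card {z // P y z})) ≃
      (Σ j : Fin n, ({y | ((j : ℕ) + 1 : ℕ∞) ≤ {z | P y z}.encard} : Set ℂ)) :=
    { toFun := fun s => ⟨⟨s.2.1, s.2.2.trans_le (hle s.1)⟩, ⟨s.1, (key _ _).2 s.2.2⟩⟩
      invFun := fun s => ⟨s.2.1, ⟨s.1.1, (key _ _).1 s.2.2⟩⟩
      left_inv := fun s => rfl
      right_inv := fun s => rfl }
  exact (e1.trans e2).trans e3

/-- the number of `x` with `T t x` (in `ℕ∞`) is the same for all `t ∈ U` outside of a countable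
set -/
def GcN {X : Type} (U : Set ℂ) (T : ℂ → X → Prop) : Prop :=
  ∃ B : Set ℂ, B.Countable ∧ ∀ t ∈ U, t ∉ B → ∀ t' ∈ U, t' ∉ B →
    {x | T t x}.encard = {x | T t' x}.encard

theorem GcN.of_qm {X : Type} {U : Set ℂ} {T : ℂ → X → Prop}
    (h : ∀ k : ℕ, QmOn U {t | {x | T t x}.encard ≤ (k : ℕ∞)}) : GcN U T := by
  obtain ⟨B, hB, hgen⟩ := generic_set h
  refine ⟨B, hB, ?_⟩
  intro t ht htB t' ht' htB'
  have h1 := hgen t ht htB t' ht' htB'
  simp only [Set.mem_ofPred_eq] at h1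
  apply le_antisymm
  · by_contra hcon
    rw [not_le] at hcon
    have hlt : {x | T t' x}.encard < ⊤ := lt_of_lt_of_le hcon le_top
    obtain ⟨k, hk⟩ := ENat.ne_top_iff_exists.1 hlt.ne
    rw [← hk] at hcon
    exact absurd ((h1 k).2 hk.symm.le) (not_le.2 hcon)
  · by_contra hcon
    rw [not_le] at hcon
    have hlt : {x | T t x}.encard < ⊤ := lt_of_lt_of_le hcon le_top
    obtain ⟨k, hk⟩ := ENat.ne_top_iff_exists.1 hlt.ne
    rw [← hk] at hcon
    exact absurd ((h1 k).1 hk.symm.le) (not_le.2 hcon)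

theorem GcN.qm {X : Type} {U : Set ℂ} {T : ℂ → X → Prop} (h : GcN U T) (k : ℕ) :
    QmOn U {t | {x | T t x}.encard ≤ (k : ℕ∞)} := by
  obtain ⟨B, hB, h⟩ := h
  by_cases hUB : ∃ t₀ ∈ U, t₀ ∉ B
  · obtain ⟨t₀, ht₀, ht₀B⟩ := hUB
    refine (QmOn.const ({x | T t₀ x}.encard ≤ (k : ℕ∞))).congr hB ?_
    intro t ht htB
    simp only [Set.mem_ofPred_eq]
    rw [h t ht htB t₀ ht₀ ht₀B]
  · push Not at hUB
    left
    exact hB.mono fun t ht => hUB t ht.1

theorem GcN.union {X : Type} {U : Set ℂ} {T T' T'' : ℂ → X → Prop} (h : GcN U T) (h' : GcN U T')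
    (hd : ∀ t ∈ U, ∀ x, T t x → T' t x → False)
    (he : ∀ t ∈ U, ∀ x, (T'' t x ↔ T t x ∨ T' t x)) : GcN U T'' := by
  obtain ⟨B, hB, h⟩ := h
  obtain ⟨B', hB', h'⟩ := h'
  refine ⟨B ∪ B', hB.union hB', ?_⟩
  have e : ∀ t ∈ U, {x | T'' t x}.encard = {x | T t x}.encard + {x | T' t x}.encard := by
    intro t ht
    have e1 : {x | T'' t x} = {x | T t x} ∪ {x | T' t x} := by
      ext x
      exact he t ht x
    rw [e1]
    apply Set.encard_union_eq
    rw [Set.disjoint_left]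
    intro x h1 h2
    exact hd t ht x h1 h2
  intro t ht htB t' ht' htB'
  rw [e t ht, e t' ht', h t ht (fun h => htB (Or.inl h)) t' ht' (fun h => htB' (Or.inl h)),
    h' t ht (fun h => htB (Or.inr h)) t' ht' (fun h => htB' (Or.inr h))]

theorem lqn_inter {n : ℕ} {U : Set ℂ} {Y Y' : ℂ → Pt n → Prop} (h : LQN U Y) (h' : LQN U Y') :
    LQN U fun t x => Y t x ∧ Y' t x :=
  fun W hW hWo hWc z hz => (h W hW hWo hWc z hz).inter (h' W hW hWo hWc z hz)

theorem lqn_zero {n : ℕ} {U : Set ℂ} {f : ℂ × Pt n → ℂ} (hf : AnalyticOnNhd ℂ f (U ×ˢ univ)) :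
    LQN U fun t x => f (t, x) = 0 := by
  intro W hW hWo hWc z hz
  refine zeros_QmOn hWc (f := fun t => f (t, z t)) ?_
  intro t ht
  exact (hf (t, z t) ⟨hW ht, mem_univ _⟩).comp (f := fun t => (t, z t)) (x := t)
    (analyticAt_id.prod (hz t ht))

theorem lqn_ne {n : ℕ} {U : Set ℂ} {f : ℂ × Pt n → ℂ} (hf : AnalyticOnNhd ℂ f (U ×ˢ univ)) :
    LQN U fun t x => f (t, x) ≠ 0 :=
  fun W hW hWo hWc z hz => (lqn_zero hf W hW hWo hWc z hz).compl

section B

variable {U : Set ℂ} {N : ℕ} {c : Fin 2 → Fin N → ℂ → ℂ} {α β : Fin 2 → Fin N → Fin 2 → ℕ}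

theorem lqn_ns (hU : IsOpen U) (hc : ∀ i l, AnalyticOnNhd ℂ (c i l) U) :
    LQN U (NS c α β) := by
  have h1 := an_Sy hc α β
  have h2 : ∀ i : Fin 2, AnalyticOnNhd ℂ (fun p : ℂ × Pt 2 => Sy c α β p.1 p.2 i) (U ×ˢ univ) :=
    fun i p hp => analyticAt_pi_iff.1 (h1 p hp) i
  have h3 := Jd_analytic hU h1
  have h4 := lqn_inter (lqn_inter (lqn_zero (h2 0)) (lqn_zero (h2 1))) (lqn_ne h3)
  intro W hW hWo hWc z hz
  refine (h4 W hW hWo hWc z hz).congr' ?_
  intro t ht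
  constructor
  · rintro ⟨⟨h5, h6⟩, h7⟩
    refine ⟨?_, h7⟩
    funext i
    fin_cases i
    · exact h5
    · exact h6
  · rintro ⟨h5, h6⟩
    exact ⟨⟨congrFun h5 0, congrFun h5 1⟩, h6⟩

theorem mpoly_eval {n : ℕ} (k : Fin n → ℂ) (z : ℂ) :
    mpoly k z = (Polynomial.X ^ n + ∑ j : Fin n, Polynomial.C (k j) * Polynomial.X ^ (j : ℕ) :
      Polynomial ℂ).eval z := by
  unfold mpoly
  simp [Polynomial.eval_finsetSum]

theorem mpoly_monic {n : ℕ} (k : Fin n → ℂ) :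
    (Polynomial.X ^ n + ∑ j : Fin n, Polynomial.C (k j) * Polynomial.X ^ (j : ℕ) :
      Polynomial ℂ).Monic := by
  apply Polynomial.monic_X_pow_add
  refine (Polynomial.degree_sum_le _ _).trans_lt ?_
  rw [Finset.sup_lt_iff (by exact WithBot.bot_lt_coe n)]
  intro j _
  refine (Polynomial.degree_C_mul_X_pow_le _ _).trans_lt ?_
  exact_mod_cast j.2

theorem mpoly_natDegree {n : ℕ} (k : Fin n → ℂ) :
    (Polynomial.X ^ n + ∑ j : Fin n, Polynomial.C (k j) * Polynomial.X ^ (j : ℕ) :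
      Polynomial ℂ).natDegree = n := by
  apply Polynomial.natDegree_eq_of_degree_eq_some
  rw [Polynomial.degree_add_eq_left_of_degree_lt]
  · exact Polynomial.degree_X_pow n
  · rw [Polynomial.degree_X_pow]
    refine (Polynomial.degree_sum_le _ _).trans_lt ?_
    rw [Finset.sup_lt_iff (by exact WithBot.bot_lt_coe n)]
    intro j _
    refine (Polynomial.degree_C_mul_X_pow_le _ _).trans_lt ?_
    exact_mod_cast j.2

theorem mpoly_roots {n : ℕ} (k : Fin n → ℂ) : {z | mpoly k z = 0}.encard ≤ n := by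
  classical
  set P := (Polynomial.X ^ n + ∑ j : Fin n, Polynomial.C (k j) * Polynomial.X ^ (j : ℕ) :
      Polynomial ℂ) with hP
  have h0 : P ≠ 0 := (mpoly_monic k).ne_zero
  have h1 : {z | mpoly k z = 0} ⊆ (P.roots.toFinset : Set ℂ) := by
    intro z hz
    rw [Finset.mem_coe, Multiset.mem_toFinset, Polynomial.mem_roots h0]
    show P.eval z = 0
    rw [← mpoly_eval]
    exact hz
  refine (Set.encard_le_encard h1).trans ?_
  rw [Set.encard_coe_eq_coe_finsetCard]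
  have h2 := (Multiset.toFinset_card_le P.roots).trans (Polynomial.card_roots' P)
  rw [mpoly_natDegree] at h2
  exact_mod_cast h2

theorem mpoly_ne {n : ℕ} (k : Fin n → ℂ) : ∃ z, mpoly k z ≠ 0 := by
  by_contra hcon
  push Not at hcon
  have h1 := mpoly_roots k
  have h2 : {z | mpoly k z = 0} = univ := eq_univ_of_forall hcon
  rw [h2, Set.encard_univ, ENat.card_eq_top_of_infinite] at h1
  exact absurd h1 (by simp)

theorem pt2_an {W : Set ℂ} {f g : ℂ → ℂ} (hf : AnalyticOnNhd ℂ f W) (hg : AnalyticOnNhd ℂ g W) :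
    AnalyticOnNhd ℂ (fun t => pt2 (f t) (g t)) W := by
  intro t ht
  refine analyticAt_pi_iff.2 fun i => ?_
  fin_cases i
  · exact hf t ht
  · exact hg t ht

theorem pt2_inj (lam : ℂ) :
    Function.Injective fun q : ℂ × ℂ => pt2 (q.1 + lam * q.2) q.2 := by
  rintro ⟨a, b⟩ ⟨a', b'⟩ h
  have h1 : b = b' := congrFun h 1
  have h2 : a + lam * b = a' + lam * b' := congrFun h 0
  subst h1
  have h3 : a = a' := add_right_cancel h2
  rw [h3]

/-- the points of the plane: the solution `(y₁ + λ y₂, y₂)` on the curve with `Y` -/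
def TB {n : ℕ} (c : Fin 2 → Fin N → ℂ → ℂ) (α β : Fin 2 → Fin N → Fin 2 → ℕ)
    (k : Fin n → ℂ → ℂ → ℂ) (lam : ℂ) (Y : ℂ → Pt 2 → Prop) (t y z : ℂ) : Prop :=
  mpoly (fun j => k j t y) z = 0 ∧ NS c α β t (pt2 (y + lam * z) z) ∧ Y t (pt2 (y + lam * z) z)

/-- the number of solutions above `y₁` -/
theorem lq_fib (hU : IsOpen U) (hc : ∀ i l, AnalyticOnNhd ℂ (c i l) U) {n : ℕ}
    {k : Fin n → ℂ → ℂ → ℂ}
    (hk : ∀ j, AnalyticOnNhd ℂ (fun p : ℂ × ℂ => k j p.1 p.2) (U ×ˢ univ)) (lam : ℂ)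
    {Y : ℂ → Pt 2 → Prop} (hY : LQN U Y) (j : ℕ) :
    LQ U fun t y => ((j : ℕ) + 1 : ℕ∞) ≤ {z | TB c α β k lam Y t y z}.encard := by
  intro W hW hWo hWc y hy
  have hky : ∀ j, AnalyticOnNhd ℂ (fun t => k j t (y t)) W := fun j t ht =>
    (hk j (t, y t) ⟨hW ht, mem_univ _⟩).comp (f := fun t => (t, y t)) (x := t)
      (analyticAt_id.prod (hy t ht))
  set f : ℂ × ℂ → ℂ := fun p => mpoly (fun j => k j p.1 (y p.1)) p.2 with hf
  have hfan : AnalyticOnNhd ℂ f (W ×ˢ univ) := by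
    rintro ⟨t, z⟩ ⟨ht, -⟩
    rw [hf]
    unfold mpoly
    refine (analyticAt_snd.pow n).add (Finset.analyticAt_fun_sum _ fun j _ => ?_)
    have h1 : AnalyticAt ℂ (fun p : ℂ × ℂ => k j p.1 (y p.1)) (t, z) :=
      (hky j t ht).comp (f := fun p : ℂ × ℂ => p.1) (x := (t, z)) analyticAt_fst
    exact h1.mul (analyticAt_snd.pow _)
  have hgrow : ∀ t₀ ∈ W, ∃ (A : ℝ) (ρ : ℕ), ∀ᶠ t in 𝓝 t₀, ∀ x,
      ‖f (t, x)‖ ≤ Real.exp (A * (1 + ‖x‖) ^ ρ) := by
    intro t₀ ht₀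
    have hw : ∀ x : ℂ, (1 : ℝ) ≤ 1 + ‖x‖ := fun x => by linarith [norm_nonneg x]
    have h1 : Gw (fun x : ℂ => 1 + ‖x‖) t₀ (fun t x => f (t, x)) := by
      rw [hf]
      unfold mpoly
      have hid : Gw (fun x : ℂ => 1 + ‖x‖) t₀ (fun _ x => x) := Gw.of_le fun _ x => by linarith
      refine (hid.pow hw n).add hw (Gw.sum hw _ fun j _ => ?_)
      exact (Gw.coeff (hky j t₀ ht₀).continuousAt).mul hw (hid.pow hw _)
    obtain ⟨A, ρ, h⟩ := h1
    refine ⟨A, ρ, ?_⟩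
    filter_upwards [h] with t ht x
    exact (ht x).trans ((Real.add_one_le_exp _).trans' (by linarith))
  have hY' : LQ W fun t z => NS c α β t (pt2 (y t + lam * z) z) ∧ Y t (pt2 (y t + lam * z) z) := by
    intro V hV hVo hVc z hz
    have h1 : AnalyticOnNhd ℂ (fun t => pt2 (y t + lam * z t) (z t)) V :=
      pt2_an ((hy.mono hV).add (analyticOnNhd_const.mul hz)) hz
    exact (lqn_inter (lqn_ns hU hc) hY) V (hV.trans hW) hVo hVc _ h1
  have h1 := (finite_order_count hWo hWc hfan hY' hgrow).qm ((j + 1 : ℕ) : Cardinal)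
  refine h1.congr' ?_
  intro t ht
  simp only [Set.mem_ofPred_eq]
  have hset : {x : ℂ | (∃ x', f (t, x') ≠ 0) ∧ f (t, x) = 0 ∧
      NS c α β t (pt2 (y t + lam * x) x) ∧ Y t (pt2 (y t + lam * x) x)} =
      {z | TB c α β k lam Y t (y t) z} := by
    ext x
    constructor
    · rintro ⟨-, h2⟩
      exact h2
    · intro h2
      exact ⟨mpoly_ne (fun j => k j t (y t)), h2⟩
  rw [hset]
  constructor
  · intro h2
    have h3 := Cardinal.toENat.monotone' h2
    rw [Set.encard, ENat.card]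
    simpa using h3
  · intro h2
    rw [Set.encard, ENat.card] at h2
    have h4 : ((j + 1 : ℕ) : ℕ∞) ≤ Cardinal.toENat #({z | TB c α β k lam Y t (y t) z} : Set ℂ) := by
      push_cast
      exact h2
    exact Cardinal.natCast_le_toENat.1 h4

end B

end Pool.Agent.T2H96.TW
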