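import Pool.Agent.T2H96.TW.CntB

/-!
Systems of two exponential polynomial equations in two unknowns: the number of nondegenerate solutions with an
arbitrary condition.
-/

set_option autoImplicit false

namespace Pool.Agent.T2H96.TW

open Set Filter Topology Metric
open scoped Cardinal
open Pool.Agent.TH735.QM Pool.Agent.TH735.FO Pool.Agent.T2H96.XS

section B

variable {U : Set ℂ} {N : ℕ} {c : Fin 2 → Fin N → ℂ → ℂ} {α β : Fin 2 → Fin N → Fin 2 → ℕ}

/-- the solutions on a family of curves which are monic in the second coordinate -/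
theorem count_curve (hU : IsOpen U) (hUc : IsPreconnected U)
    (hc : ∀ i l, AnalyticOnNhd ℂ (c i l) U) {n : ℕ} {k : Fin n → ℂ → ℂ → ℂ}
    (hk : ∀ j, AnalyticOnNhd ℂ (fun p : ℂ × ℂ => k j p.1 p.2) (U ×ˢ univ))
    (hkg : ∀ j, ∀ t₀ ∈ U, ∃ (A : ℝ) (ρ : ℕ), ∀ᶠ t in 𝓝 t₀, ∀ y, ‖k j t y‖ ≤ A * (1 + ‖y‖) ^ ρ)
    (lam : ℂ) {Y : ℂ → Pt 2 → Prop} (hY : LQN U Y) :
    GcN U (fun t (q : ℂ × ℂ) => TB c α β k lam Y t q.1 q.2) := by
  rcases U.eq_empty_or_nonempty with rfl | hne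
  · exact ⟨∅, countable_empty, fun t ht => absurd ht (Set.notMem_empty t)⟩
  choose ν hνan hνg hνne hν using fun i : Fin 2 => norm2 hU hk hkg (hc i) (α i) (β i) lam
  -- the norm is not identically zero, generically
  have hB₀ : ∀ i : Fin 2, ∃ y₀ : ℂ, (U ∩ {t | ν i t y₀ = 0}).Countable := by
    intro i
    obtain ⟨t₁, ht₁, y₁, h1⟩ := hνne i hne
    refine ⟨y₁, zeros_countableOn hUc (f := fun t => ν i t y₁) ?_ ⟨t₁, ht₁, h1⟩⟩
    intro t ht
    exact (hνan i (t, y₁) ⟨ht, mem_univ _⟩).comp (f := fun t : ℂ => (t, y₁)) (x := t)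
      (analyticAt_id.prod analyticAt_const)
  choose y₀ hy₀ using hB₀
  set B₀ : Set ℂ := ⋃ i : Fin 2, U ∩ {t | ν i t (y₀ i) = 0} with hB₀def
  have hB₀c : B₀.Countable := countable_iUnion hy₀
  have hsl : ∀ t ∈ U, ∀ i, Differentiable ℂ (ν i t) := by
    intro t ht i y
    exact ((hνan i (t, y) ⟨ht, mem_univ _⟩).comp (f := fun y : ℂ => (t, y)) (x := y)
      (analyticAt_const.prod analyticAt_id)).differentiableAt
  have hne' : ∀ t ∈ U, t ∉ B₀ → ∃ y, ν 0 t y * ν 1 t y ≠ 0 := by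
    intro t ht htB
    have h1 : ∀ i, ∃ y, ν i t y ≠ 0 := fun i =>
      ⟨y₀ i, fun h0 => htB (mem_iUnion.2 ⟨i, ht, h0⟩)⟩
    have h2 := (zeros_countable (hsl t ht 0) (h1 0)).union (zeros_countable (hsl t ht 1) (h1 1))
    by_contra hcon
    push Not at hcon
    apply uncountable_univ
    refine h2.mono ?_
    intro y _
    rcases mul_eq_zero.1 (hcon y) with h3 | h3
    · exact Or.inl h3
    · exact Or.inr h3
  -- the norm vanishes at the first coordinates of the solutions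
  have hT : ∀ t ∈ U, ∀ y z, TB c α β k lam Y t y z → ν 0 t y * ν 1 t y = 0 := by
    rintro t ht y z ⟨h1, ⟨h2, h3⟩, -⟩
    have hkc : ∀ j, Continuous (k j t) := by
      intro j
      rw [continuous_iff_continuousAt]
      intro y'
      exact ((hk j (t, y') ⟨ht, mem_univ _⟩).comp (f := fun y : ℂ => (t, y)) (x := y')
        (analyticAt_const.prod analyticAt_id)).continuousAt
    have hG : AnalyticOnNhd ℂ (Sy c α β t) univ := by
      intro x _
      exact (an_Sy hc α β (t, x) ⟨ht, mem_univ _⟩).comp (f := fun x : Pt 2 => (t, x)) (x := x)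
        (analyticAt_const.prod analyticAt_id)
    obtain ⟨i, hi⟩ := isol2 (k := fun j => k j t) hkc hG h1 h2 h3
    have h4 : ν i t y = 0 := hν i t ht y z h1 (congrFun h2 i) hi
    fin_cases i
    · rw [show ν 0 t y = 0 from h4, zero_mul]
    · rw [show ν 1 t y = 0 from h4, mul_zero]
  -- the sets of the `y₁` with many `y₂`
  have hlev : ∀ j : Fin n, GenCard U fun t y =>
      ((j : ℕ) + 1 : ℕ∞) ≤ {z | TB c α β k lam Y t y z}.encard := by
    intro j
    have hfan : AnalyticOnNhd ℂ (fun p : ℂ × ℂ => ν 0 p.1 p.2 * ν 1 p.1 p.2) (U ×ˢ univ) :=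
      (hνan 0).mul (hνan 1)
    have hgrow : ∀ t₀ ∈ U, ∃ (A : ℝ) (ρ : ℕ), ∀ᶠ t in 𝓝 t₀, ∀ x,
        ‖(fun p : ℂ × ℂ => ν 0 p.1 p.2 * ν 1 p.1 p.2) (t, x)‖ ≤
          Real.exp (A * (1 + ‖x‖) ^ ρ) := by
      intro t₀ ht₀
      obtain ⟨A₁, ρ₁, h1⟩ := hνg 0 t₀ ht₀
      obtain ⟨A₂, ρ₂, h2⟩ := hνg 1 t₀ ht₀
      refine ⟨|A₁| + |A₂|, ρ₁ + ρ₂, ?_⟩
      filter_upwards [h1, h2] with t h3 h4 x
      have hx : (1 : ℝ) ≤ 1 + ‖x‖ := by linarith [norm_nonneg x]
      have h5 := pow_up hx (le_abs_self A₁) (abs_nonneg A₁) (Nat.le_add_right ρ₁ ρ₂)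
      have h6 := pow_up hx (le_abs_self A₂) (abs_nonneg A₂) (Nat.le_add_left ρ₂ ρ₁)
      show ‖ν 0 t x * ν 1 t x‖ ≤ _
      rw [norm_mul, add_mul, Real.exp_add]
      exact mul_le_mul ((h3 x).trans (Real.exp_le_exp.2 h5)) ((h4 x).trans (Real.exp_le_exp.2 h6))
        (norm_nonneg _) (Real.exp_pos _).le
    refine (finite_order_count hU hUc hfan (lq_fib hU hc (α := α) (β := β) hk lam hY j)
      hgrow).congr hB₀c ?_
    intro t ht htB y
    constructor
    · rintro ⟨-, -, h1⟩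
      exact h1
    · intro h1
      refine ⟨hne' t ht htB, ?_, h1⟩
      have h2 : {z | TB c α β k lam Y t y z}.Nonempty := by
        rw [← Set.encard_pos]
        refine lt_of_lt_of_le ?_ h1
        exact_mod_cast Nat.succ_pos _
      obtain ⟨z, hz⟩ := h2
      exact hT t ht y z hz
  choose B hB h using hlev
  refine ⟨⋃ j, B j, countable_iUnion hB, ?_⟩
  have hle : ∀ t y, {z | TB c α β k lam Y t y z}.encard ≤ n := fun t y =>
    (Set.encard_le_encard fun z hz => hz.1).trans (mpoly_roots fun j => k j t y)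
  intro t ht htB t' ht' htB'
  have h1 := fib_card (fun y z => TB c α β k lam Y t y z) (hle t)
  have h2 := fib_card (fun y z => TB c α β k lam Y t' y z) (hle t')
  have h3 : #({q : ℂ × ℂ | TB c α β k lam Y t q.1 q.2} : Set (ℂ × ℂ)) =
      #({q : ℂ × ℂ | TB c α β k lam Y t' q.1 q.2} : Set (ℂ × ℂ)) := by
    rw [h1, h2]
    congr 1
    funext j
    exact h j t ht (fun h' => htB (mem_iUnion.2 ⟨j, h'⟩)) t' ht'
      (fun h' => htB' (mem_iUnion.2 ⟨j, h'⟩))
  show Set.encard _ = Set.encard _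
  rw [Set.encard, Set.encard, ENat.card, ENat.card]
  exact congrArg Cardinal.toENat h3

/-- the solutions on a family of plane algebraic curves -/
theorem countB (hU : IsOpen U) (hUc : IsPreconnected U)
    (hc : ∀ i l, AnalyticOnNhd ℂ (c i l) U) {e : ℕ} {q : Fin e → Fin e → ℂ → ℂ}
    (hq : ∀ i j, AnalyticOnNhd ℂ (q i j) U) (hqne : ∃ i j, ∃ t ∈ U, q i j t ≠ 0)
    {Y : ℂ → Pt 2 → Prop} (hY : LQN U Y) :
    GcN U fun t x => (NS c α β t x ∧ qpoly (fun i j => q i j t) x = 0) ∧ Y t x := by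
  obtain ⟨lam, n, κ, k, hκ, hκne, hk, hkg, hqk⟩ := lead2 hq hqne
  have hBc := zeros_countableOn hUc hκ hκne
  refine GcN.of_qm fun m => QmOn.of_local hU hUc hBc ?_
  intro t₀ ht₀ ht₀B
  have hκ0 : κ t₀ ≠ 0 := fun h0 => ht₀B ⟨ht₀, h0⟩
  obtain ⟨R, hR, hR'⟩ := Metric.eventually_nhds_iff_ball.1
    (((hκ t₀ ht₀).continuousAt.eventually_ne hκ0).and (hU.mem_nhds ht₀))
  have hsub : ball t₀ R ⊆ U := fun t ht => (hR' t ht).2
  have hκR : ∀ t ∈ ball t₀ R, κ t ≠ 0 := fun t ht => (hR' t ht).1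
  refine ⟨R, hR, ?_⟩
  set k' : Fin n → ℂ → ℂ → ℂ := fun j t y => k j t y / κ t with hk'
  have hk'an : ∀ j, AnalyticOnNhd ℂ (fun p : ℂ × ℂ => k' j p.1 p.2) (ball t₀ R ×ˢ univ) := by
    rintro j ⟨t, y⟩ ⟨ht, -⟩
    have h1 : AnalyticAt ℂ (fun p : ℂ × ℂ => κ p.1) (t, y) :=
      (hκ t (hsub ht)).comp (f := fun p : ℂ × ℂ => p.1) (x := (t, y)) analyticAt_fst
    exact (hk j (t, y) ⟨hsub ht, mem_univ _⟩).div h1 (hκR t ht)
  have hk'g : ∀ j, ∀ t₁ ∈ ball t₀ R, ∃ (A : ℝ) (ρ : ℕ), ∀ᶠ t in 𝓝 t₁, ∀ y,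
      ‖k' j t y‖ ≤ A * (1 + ‖y‖) ^ ρ := by
    intro j t₁ ht₁
    obtain ⟨A, ρ, h⟩ := hkg j t₁ (hsub ht₁)
    have hpos : 0 < ‖κ t₁‖ / 2 := by
      have := norm_pos_iff.2 (hκR t₁ ht₁)
      linarith
    have h1 : ∀ᶠ t in 𝓝 t₁, ‖κ t₁‖ / 2 < ‖κ t‖ :=
      ((hκ t₁ (hsub ht₁)).continuousAt.norm).eventually (lt_mem_nhds (by linarith))
    refine ⟨|A| / (‖κ t₁‖ / 2), ρ, ?_⟩
    filter_upwards [h, h1] with t h2 h3 y
    rw [hk']
    simp only
    rw [norm_div, div_mul_eq_mul_div]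
    apply div_le_div₀ _ _ hpos h3.le
    · positivity
    · exact (h2 y).trans (mul_le_mul_of_nonneg_right (le_abs_self A) (by positivity))
  have hc' : ∀ i l, AnalyticOnNhd ℂ (c i l) (ball t₀ R) := fun i l => (hc i l).mono hsub
  have key := (count_curve (α := α) (β := β) isOpen_ball (convex_ball t₀ R).isPreconnected hc'
    hk'an hk'g lam (hY.mono hsub)).qm m
  refine key.congr' ?_
  intro t ht
  have hmp : ∀ y z, mpoly (fun j => k' j t y) z = 0 ↔
      qpoly (fun i j => q i j t) (pt2 (y + lam * z) z) = 0 := by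
    intro y z
    rw [hqk t (hsub ht) y z]
    have h1 : κ t * z ^ n + ∑ j : Fin n, k j t y * z ^ (j : ℕ) =
        κ t * mpoly (fun j => k' j t y) z := by
      unfold mpoly
      rw [mul_add, Finset.mul_sum]
      congr 1
      refine Finset.sum_congr rfl fun j _ => ?_
      rw [hk']
      have := hκR t ht
      field_simp
    rw [h1]
    constructor
    · intro h2
      rw [h2, mul_zero]
    · intro h2
      exact (mul_eq_zero.1 h2).resolve_left (hκR t ht)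
  have hset : {x : Pt 2 | (NS c α β t x ∧ qpoly (fun i j => q i j t) x = 0) ∧ Y t x} =
      (fun p : ℂ × ℂ => pt2 (p.1 + lam * p.2) p.2) ''
        {p : ℂ × ℂ | TB c α β k' lam Y t p.1 p.2} := by
    ext x
    constructor
    · rintro ⟨⟨h1, h2⟩, h3⟩
      have hx : pt2 ((x 0 - lam * x 1) + lam * x 1) (x 1) = x := by
        funext i
        fin_cases i
        · show (x 0 - lam * x 1) + lam * x 1 = x 0
          ring
        · rfl
      refine ⟨(x 0 - lam * x 1, x 1), ⟨?_, ?_, ?_⟩, hx⟩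
      · rw [hmp]
        show qpoly _ (pt2 ((x 0 - lam * x 1) + lam * x 1) (x 1)) = 0
        rw [hx]
        exact h2
      · show NS c α β t (pt2 ((x 0 - lam * x 1) + lam * x 1) (x 1))
        rw [hx]
        exact h1
      · show Y t (pt2 ((x 0 - lam * x 1) + lam * x 1) (x 1))
        rw [hx]
        exact h3
    · rintro ⟨⟨y, z⟩, ⟨h1, h2, h3⟩, rfl⟩
      exact ⟨⟨h2, (hmp y z).1 h1⟩, h3⟩
  simp only [Set.mem_ofPred_eq]
  rw [hset, (pt2_inj lam).encard_image]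

/-- the number of nondegenerate solutions with a condition `Y` -/
theorem two_count (hU : IsOpen U) (hUc : IsPreconnected U)
    (hc : ∀ i l, AnalyticOnNhd ℂ (c i l) U) {Y : ℂ → Pt 2 → Prop} (hY : LQN U Y)
    (κ : Cardinal.{0}) :
    QmOn U {t | κ ≤ #({x : Pt 2 | NS c α β t x ∧ Y t x} : Set (Pt 2))} := by
  rcases U.eq_empty_or_nonempty with rfl | hne
  · left
    rw [Set.empty_inter]
    exact countable_empty
  choose d e b hb hbne hz using fun v : Fin 2 => elim2 hU hUc hne hc α β v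
  have hA : GcN U fun t x => (NS c α β t x ∧ Lam b t x ≠ 0) ∧ Y t x :=
    GcN.of_qm fun k => countA hU hUc hc hb hz hY k
  have hB0 : GcN U fun t x =>
      (NS c α β t x ∧ qpoly (fun i j => b 0 (Fin.last _) i j t) x = 0) ∧ Y t x :=
    countB hU hUc hc (hb 0 _) (hbne 0) hY
  have hB1 : GcN U fun t x =>
      (NS c α β t x ∧ qpoly (fun i j => b 1 (Fin.last _) i j t) x = 0) ∧
        (Y t x ∧ qpoly (fun i j => b 0 (Fin.last _) i j t) x ≠ 0) :=
    countB hU hUc hc (hb 1 _) (hbne 1) (lqn_inter hY (lqn_ne (an_qpoly (hb 0 _))))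
  have h1 : GcN U fun t x => (NS c α β t x ∧ Lam b t x = 0) ∧ Y t x := by
    refine GcN.union hB0 hB1 ?_ ?_
    · rintro t ht x ⟨⟨-, h2⟩, -⟩ ⟨-, -, h3⟩
      exact h3 h2
    · intro t ht x
      have h2 : Lam b t x = 0 ↔ qpoly (fun i j => b 0 (Fin.last _) i j t) x = 0 ∨
          qpoly (fun i j => b 1 (Fin.last _) i j t) x = 0 := by
        unfold Lam
        exact mul_eq_zero
      tauto
  have h2 : GcN U fun t x => NS c α β t x ∧ Y t x := by
    refine GcN.union hA h1 ?_ ?_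
    · rintro t ht x ⟨⟨-, h2⟩, -⟩ ⟨⟨-, h3⟩, -⟩
      exact h2 h3
    · intro t ht x
      tauto
  refine genCardN (fun k => h2.qm k) countable_empty ?_ κ
  intro t ht _
  have hZ := br_of_jac hU (an_Sy hc α β) (Λ := fun _ => 1) (fun _ _ => analyticAt_const)
  refine (sol_countable hZ t).mono ?_
  rintro x ⟨h1, -⟩
  exact ⟨ht, h1.1, h1.2, one_ne_zero⟩

end B

end Pool.Agent.T2H96.TW
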