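import Pool.Agent.T2H96.XS.Rule

/-!
Systems of two exponential polynomial equations in two unknowns: definitions.
-/

set_option autoImplicit false

namespace Pool.Agent.T2H96.TW

open Set Filter Topology Metric
open Pool.Agent.T2H96.XS

/-- the point `(x₁, x₂)` of `ℂ^2` -/
def pt2 (a b : ℂ) : Pt 2 := ![a, b]

/-- the polynomial `∑ c_l x₁^{α_{l1}} x₂^{α_{l2}} exp(x₁)^{β_{l1}} exp(x₂)^{β_{l2}}` in
`x₁, x₂, exp x₁, exp x₂` -/
noncomputable def epoly {N : ℕ} (c : Fin N → ℂ) (α β : Fin N → Fin 2 → ℕ) (x : Pt 2) : ℂ :=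
  ∑ l, c l * (x 0 ^ α l 0 * x 1 ^ α l 1 * Complex.exp (x 0) ^ β l 0 * Complex.exp (x 1) ^ β l 1)

/-- the polynomial `∑ b_{ij} x₁^i x₂^j` in `x₁, x₂` -/
noncomputable def qpoly {e : ℕ} (b : Fin e → Fin e → ℂ) (x : Pt 2) : ℂ :=
  ∑ i : Fin e, ∑ j : Fin e, b i j * (x 0 ^ (i : ℕ) * x 1 ^ (j : ℕ))

/-- the monic polynomial `z^n + ∑ k_j z^j` -/
noncomputable def mpoly {n : ℕ} (k : Fin n → ℂ) (z : ℂ) : ℂ := z ^ n + ∑ j, k j * z ^ (j : ℕ)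

/-- the system with coefficients `c_{il}(t)` -/
noncomputable def Sy {N : ℕ} (c : Fin 2 → Fin N → ℂ → ℂ) (α β : Fin 2 → Fin N → Fin 2 → ℕ)
    (t : ℂ) (x : Pt 2) : Pt 2 := fun i => epoly (fun l => c i l t) (α i) (β i) x

end Pool.Agent.T2H96.TW
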