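import Pool.Agent.T2H96.TW.Defs

/-!
PACKAGE E1 (20-35 min; pure algebra). The Euclidean algorithm over the fraction field, without denominators.

Paper proof. Let `L = FractionRing B` and `p_i = P_i.map (algebraMap B L)`, not both zero. Let `g = gcd p₁ p₂ ≠ 0` in the
Euclidean domain `L[X]`, `p_i = g a_i`; then `a₁, a₂` are coprime: `b₁ a₁ + b₂ a₂ = 1`. Clear denominators: there are
nonzero `s ∈ B` and `g', a_i', b_i' ∈ B[X]` with images `s g, s a_i, s b_i` (`IsLocalization.integerNormalization` or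
`Polynomial.exists_...`, or by `IsLocalization.exist_integer_multiples_of_finset` on the coefficients; one common
`s`). Then `s² p_i = g' a_i'` and `b₁' a₁' + b₂' a₂' = s²`, so `r = s²` works with `A_i = a_i'`, `B_i = b_i'`
(injectivity of `B[X] → L[X]`).
-/

set_option autoImplicit false

namespace Pool.Agent.T2H96.TW

open Polynomial

/-- clearing the denominators of one polynomial over the fraction field -/
theorem clear_one {B : Type} [CommRing B] [IsDomain B] (q : (FractionRing B)[X]) :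
    ∃ s : B, s ≠ 0 ∧ ∃ q' : B[X],
      q'.map (algebraMap B (FractionRing B)) = C (algebraMap B (FractionRing B) s) * q := by
  obtain ⟨b, hbM, hb⟩ := IsLocalization.integerNormalization_spec (nonZeroDivisors B)
    (S := FractionRing B) q
  refine ⟨b, nonZeroDivisors.ne_zero hbM, IsLocalization.integerNormalization (nonZeroDivisors B) q, ?_⟩
  rw [hb]
  ext n
  simp [Algebra.smul_def]

/-- clearing the denominators of finitely many polynomials over the fraction field -/
theorem clear_list {B : Type} [CommRing B] [IsDomain B] (l : List (FractionRing B)[X]) :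
    ∃ s : B, s ≠ 0 ∧ ∀ q ∈ l, ∃ q' : B[X],
      q'.map (algebraMap B (FractionRing B)) = C (algebraMap B (FractionRing B) s) * q := by
  induction l with
  | nil => exact ⟨1, one_ne_zero, by simp⟩
  | cons a l ih =>
    obtain ⟨s, hs, h⟩ := ih
    obtain ⟨s', hs', a', ha'⟩ := clear_one a
    refine ⟨s * s', mul_ne_zero hs hs', fun q hq => ?_⟩
    rcases List.mem_cons.mp hq with rfl | hq
    · refine ⟨C s * a', ?_⟩
      rw [Polynomial.map_mul, ha', map_C, map_mul, C_mul]
      ring
    · obtain ⟨q', hq'⟩ := h q hq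
      refine ⟨C s' * q', ?_⟩
      rw [Polynomial.map_mul, hq', map_C, map_mul, C_mul]
      ring

theorem euclid_clear {B : Type} [CommRing B] [IsDomain B] (P₁ P₂ : B[X])
    (h : P₁ ≠ 0 ∨ P₂ ≠ 0) :
    ∃ (r : B) (g A₁ A₂ B₁ B₂ : B[X]), r ≠ 0 ∧ C r * P₁ = g * A₁ ∧ C r * P₂ = g * A₂ ∧
      B₁ * A₁ + B₂ * A₂ = C r := by
  classical
  set φ := algebraMap B (FractionRing B) with hφ
  have hinj : Function.Injective (Polynomial.map φ : B[X] → (FractionRing B)[X]) :=
    Polynomial.map_injective φ (IsFractionRing.injective B (FractionRing B))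
  set p₁ := P₁.map φ
  set p₂ := P₂.map φ
  set g := EuclideanDomain.gcd p₁ p₂ with hg
  have hg0 : g ≠ 0 := by
    intro h0
    obtain ⟨h1, h2⟩ := EuclideanDomain.gcd_eq_zero_iff.mp h0
    rcases h with h | h
    · exact h (hinj (by rw [Polynomial.map_zero]; exact h1))
    · exact h (hinj (by rw [Polynomial.map_zero]; exact h2))
  obtain ⟨a₁, ha₁⟩ := EuclideanDomain.gcd_dvd_left p₁ p₂
  obtain ⟨a₂, ha₂⟩ := EuclideanDomain.gcd_dvd_right p₁ p₂
  rw [← hg] at ha₁ ha₂
  have hbez := EuclideanDomain.gcd_eq_gcd_ab p₁ p₂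
  rw [← hg] at hbez
  set x := EuclideanDomain.gcdA p₁ p₂
  set y := EuclideanDomain.gcdB p₁ p₂
  have hone : x * a₁ + y * a₂ = 1 := by
    apply mul_left_cancel₀ hg0
    calc g * (x * a₁ + y * a₂) = (g * a₁) * x + (g * a₂) * y := by ring
      _ = p₁ * x + p₂ * y := by rw [← ha₁, ← ha₂]
      _ = g := hbez.symm
      _ = g * 1 := (mul_one g).symm
  obtain ⟨s, hs, hl⟩ := clear_list [g, a₁, a₂, x, y]
  obtain ⟨g', hg'⟩ := hl g (by simp)
  obtain ⟨a₁', ha₁'⟩ := hl a₁ (by simp)
  obtain ⟨a₂', ha₂'⟩ := hl a₂ (by simp)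
  obtain ⟨x', hx'⟩ := hl x (by simp)
  obtain ⟨y', hy'⟩ := hl y (by simp)
  rw [← hφ] at hg' ha₁' ha₂' hx' hy'
  refine ⟨s * s, g', a₁', a₂', x', y', mul_ne_zero hs hs, ?_, ?_, ?_⟩
  · apply hinj
    rw [Polynomial.map_mul, Polynomial.map_mul, hg', ha₁', map_C, map_mul, C_mul]
    change _ * p₁ = _
    rw [ha₁]
    ring
  · apply hinj
    rw [Polynomial.map_mul, Polynomial.map_mul, hg', ha₂', map_C, map_mul, C_mul]
    change _ * p₂ = _
    rw [ha₂]
    ring
  · apply hinj
    rw [Polynomial.map_add, Polynomial.map_mul, Polynomial.map_mul, hx', ha₁', hy', ha₂', map_C,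
      map_mul, C_mul]
    calc _ = C (φ s) * C (φ s) * (x * a₁ + y * a₂) := by ring
      _ = _ := by rw [hone, mul_one]

end Pool.Agent.T2H96.TW
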