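import Pool.Agent.T2H96.TW.E1

/-!
PACKAGE E2 (60-90 min). Elimination: at the nondegenerate solutions of a system of two equations in two
unknowns, polynomial in `x₁, x₂, exp x₁, exp x₂` with coefficients analytic in `t ∈ U`, the number
`exp x_v` (`v = 0` or `1`) is a root of a polynomial of degree `d + 1 ≥ 1` whose coefficients are polynomials in
`x₁, x₂` with coefficients analytic in `t`, the leading one not identically zero.

Paper proof. Let `𝒜` be the ring of all functions `f : U → ℂ` which are restrictions of functions analytic on a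
neighbourhood of `U` (a subring of `U → ℂ`); it is a domain by the identity theorem
(`AnalyticOnNhd.eq_zero_or_eq_zero_of_mul_eq_zero` or `AnalyticOnNhd.eqOn_zero_of_preconnected_of_frequently_eq_zero`).
Write `w = exp x_v`, `w' = exp x_{v'}` with `v' ≠ v`. The equations are polynomials `P_1, P_2 ∈ B[w']` with
`B = 𝒜[x₁][x₂][w]` (iterated `Polynomial`), `P_i = ∑_l C(c_{il} x₁^… x₂^… w^…) w'^…`. If both are zero, there are no
nondegenerate solutions and one can take `d = 0`, `e = 1`, all coefficients `1`. Otherwise take `r, g, A_i, B_i` from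
`euclid_clear`. For `t ∈ U` and `x ∈ ℂ^2` evaluation gives ring homomorphisms, so as analytic functions of
`x ∈ ℂ^2` (with `w = exp x_v`, `w' = exp x_{v'}`, `t` fixed): `r F_i = g A_i`, `B_1 A_1 + B_2 A_2 = r`, where `F_i` is the
`i`-th equation. CLAIM: if `x` is a nondegenerate solution then `r(t, x) = 0`. Otherwise `A_1, A_2` are not both
zero at `x`, and `r F_i = 0 = g A_i` at `x`, so `g = 0` at `x`. Differentiating at `x` (where `F_i = 0`, `g = 0`):
`r ∇F_i = A_i ∇g`, so `r² det(∇F_1, ∇F_2) = A_1 A_2 det(∇g, ∇g) = 0`, contradiction.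
Now `r = ∑_j r_j w^j` with `r_j ∈ 𝒜[x₁][x₂]`, leading coefficient nonzero; if the degree is `0` multiply by `w`.
The `b j i i'` are the coefficients of the `r_j` (extended by the analytic representatives; `e` larger than all degrees).
-/

set_option autoImplicit false

namespace Pool.Agent.T2H96.TW

open Set Filter Topology Metric
open Pool.Agent.T2H96.XS
open Polynomial

/-- the ring of the functions analytic on `U` -/
def AnR (U : Set ℂ) : Subring (U → ℂ) where
  carrier := {f | ∃ F : ℂ → ℂ, AnalyticOnNhd ℂ F U ∧ ∀ t : U, f t = F t}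
  mul_mem' := by
    rintro f g ⟨F, hF, hF'⟩ ⟨G, hG, hG'⟩
    exact ⟨fun t => F t * G t, fun t ht => (hF t ht).mul (hG t ht), fun t => by
      rw [Pi.mul_apply, hF' t, hG' t]⟩
  one_mem' := ⟨fun _ => 1, fun _ _ => analyticAt_const, fun _ => rfl⟩
  add_mem' := by
    rintro f g ⟨F, hF, hF'⟩ ⟨G, hG, hG'⟩
    exact ⟨fun t => F t + G t, fun t ht => (hF t ht).add (hG t ht), fun t => by
      rw [Pi.add_apply, hF' t, hG' t]⟩
  zero_mem' := ⟨fun _ => 0, fun _ _ => analyticAt_const, fun _ => rfl⟩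
  neg_mem' := by
    rintro f ⟨F, hF, hF'⟩
    exact ⟨fun t => - F t, fun t ht => (hF t ht).neg, fun t => by
      rw [Pi.neg_apply, hF' t]⟩

theorem anR_isDomain {U : Set ℂ} (hUc : IsPreconnected U) (hne : U.Nonempty) :
    IsDomain (AnR U) := by
  have : Nonempty U := hne.to_subtype
  have : NoZeroDivisors (AnR U) := by
    refine ⟨?_⟩
    rintro ⟨f, F, hF, hF'⟩ ⟨g, G, hG, hG'⟩ h
    have h1 : ∀ t : U, f t * g t = 0 := fun t => congrFun (congrArg Subtype.val h) t
    have h2 : ∀ t ∈ U, F t * G t = 0 := by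
      intro t ht
      have := h1 ⟨t, ht⟩
      rwa [hF' ⟨t, ht⟩, hG' ⟨t, ht⟩] at this
    rcases hF.eq_zero_or_eq_zero_of_mul_eq_zero hG h2 hUc with h3 | h3
    · left
      apply Subtype.ext
      funext t
      exact (hF' t).trans (h3 t t.2)
    · right
      apply Subtype.ext
      funext t
      exact (hG' t).trans (h3 t t.2)
  exact NoZeroDivisors.to_isDomain _

/-- evaluation at `t` -/
def evA (U : Set ℂ) (t : U) : AnR U →+* ℂ :=
  (Pi.evalRingHom (fun _ : U => ℂ) t).comp (AnR U).subtype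

theorem diff_eval₂ {R : Type} [CommRing R] {Φ : Pt 2 → (R →+* ℂ)}
    (h : ∀ a, Differentiable ℂ (fun x => Φ x a)) {g : Pt 2 → ℂ} (hg : Differentiable ℂ g)
    (p : R[X]) : Differentiable ℂ (fun x => eval₂RingHom (Φ x) (g x) p) := by
  simp only [coe_eval₂RingHom, eval₂_eq_sum_range]
  exact Differentiable.fun_sum fun i _ => (h _).mul (hg.pow i)

/-- the differential argument -/
theorem det_crit {F : Pt 2 → Pt 2} {g r : Pt 2 → ℂ} {a b : Fin 2 → Pt 2 → ℂ}
    (hF : Differentiable ℂ F) (hg : Differentiable ℂ g) (hr : Differentiable ℂ r)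
    (ha : ∀ i, Differentiable ℂ (a i)) {x : Pt 2} (h0 : F x = 0) (hd : (pJ F x).det ≠ 0)
    (h1 : ∀ i y, r y * F y i = g y * a i y) (h2 : ∀ y, b 0 y * a 0 y + b 1 y * a 1 y = r y) :
    r x = 0 := by
  by_contra hrx
  have hFi : ∀ i, F x i = 0 := fun i => congrFun h0 i
  have hg0 : g x = 0 := by
    by_contra hgx
    have ha0 : ∀ i, a i x = 0 := by
      intro i
      have := h1 i x
      rw [hFi i, mul_zero] at this
      exact (mul_eq_zero.1 this.symm).resolve_left hgx
    apply hrx
    rw [← h2 x, ha0, ha0]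
    ring
  have hFd : ∀ i, DifferentiableAt ℂ (fun y => F y i) x := fun i =>
    (differentiable_pi.1 hF i) x
  have hJ : ∀ i j, pJ F x i j = fderiv ℂ (fun y => F y i) x (Pi.single j 1) := by
    intro i j
    unfold pJ
    rw [Matrix.of_apply]
    have : fderiv ℂ F x = ContinuousLinearMap.pi fun i => fderiv ℂ (fun y => F y i) x :=
      fderiv_pi hFd
    rw [this]
    rfl
  have hkey : ∀ i j, r x * pJ F x i j = a i x * fderiv ℂ g x (Pi.single j 1) := by
    intro i j
    have e1 : fderiv ℂ (fun y => r y * F y i) x = fderiv ℂ (fun y => g y * a i y) x := by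
      congr 1
      funext y
      exact h1 i y
    rw [fderiv_fun_mul (hr x) (hFd i), fderiv_fun_mul (hg x) (ha i x), hFi i, hg0] at e1
    have e2 := congrArg (fun L => L (Pi.single j 1)) e1
    simp only [_root_.add_apply, _root_.smul_apply, smul_eq_mul,
      zero_mul, add_zero, zero_add] at e2
    rw [hJ]
    exact e2
  apply hd
  rw [Matrix.det_fin_two]
  have e : r x * r x * (pJ F x 0 0 * pJ F x 1 1 - pJ F x 0 1 * pJ F x 1 0) = 0 := by
    calc r x * r x * (pJ F x 0 0 * pJ F x 1 1 - pJ F x 0 1 * pJ F x 1 0)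
        = (r x * pJ F x 0 0) * (r x * pJ F x 1 1) - (r x * pJ F x 0 1) * (r x * pJ F x 1 0) := by
          ring
      _ = 0 := by
        rw [hkey, hkey, hkey, hkey]
        ring
  exact (mul_eq_zero.1 e).resolve_left (mul_ne_zero hrx hrx)

theorem deg_bound {R : Type} [CommRing R] (p : R[X][X]) :
    ∃ e₀ : ℕ, ∀ e ≥ e₀, p.natDegree < e ∧ ∀ i, (p.coeff i).natDegree < e := by
  refine ⟨p.natDegree + 1 + ∑ i ∈ Finset.range (p.natDegree + 1), (p.coeff i).natDegree, ?_⟩
  intro e he
  refine ⟨by omega, ?_⟩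
  intro i
  by_cases hi : i ≤ p.natDegree
  · have h1 : (p.coeff i).natDegree ≤
        ∑ i ∈ Finset.range (p.natDegree + 1), (p.coeff i).natDegree :=
      Finset.single_le_sum (f := fun i => (p.coeff i).natDegree) (fun _ _ => Nat.zero_le _)
        (Finset.mem_range.2 (by omega))
    omega
  · rw [coeff_eq_zero_of_natDegree_lt (by omega), natDegree_zero]
    omega

section ev

variable {A : Type} [CommRing A]

/-- the evaluation homomorphisms -/
noncomputable def ev1 (φ : A →+* ℂ) (x : Pt 2) : A[X] →+* ℂ := eval₂RingHom φ (x 1)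

noncomputable def ev2 (φ : A →+* ℂ) (x : Pt 2) : A[X][X] →+* ℂ := eval₂RingHom (ev1 φ x) (x 0)

noncomputable def ev3 (φ : A →+* ℂ) (v : Fin 2) (x : Pt 2) : A[X][X][X] →+* ℂ :=
  eval₂RingHom (ev2 φ x) (Complex.exp (x v))

noncomputable def ev4 (φ : A →+* ℂ) (v : Fin 2) (x : Pt 2) : A[X][X][X][X] →+* ℂ :=
  eval₂RingHom (ev3 φ v x) (Complex.exp (x (1 - v)))

theorem diff_coord (i : Fin 2) : Differentiable ℂ (fun x : Pt 2 => x i) :=
  (ContinuousLinearMap.proj (R := ℂ) (φ := fun _ : Fin 2 => ℂ) i).differentiable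

theorem diff1 (φ : A →+* ℂ) (p : A[X]) : Differentiable ℂ (fun x => ev1 φ x p) :=
  diff_eval₂ (fun _ => differentiable_const _) (diff_coord 1) p

theorem diff2 (φ : A →+* ℂ) (p : A[X][X]) : Differentiable ℂ (fun x => ev2 φ x p) :=
  diff_eval₂ (fun a => diff1 φ a) (diff_coord 0) p

theorem diff3 (φ : A →+* ℂ) (v : Fin 2) (p : A[X][X][X]) :
    Differentiable ℂ (fun x => ev3 φ v x p) :=
  diff_eval₂ (fun a => diff2 φ a) ((diff_coord v).cexp) p

theorem diff4 (φ : A →+* ℂ) (v : Fin 2) (p : A[X][X][X][X]) :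
    Differentiable ℂ (fun x => ev4 φ v x p) :=
  diff_eval₂ (fun a => diff3 φ v a) ((diff_coord (1 - v)).cexp) p

theorem ev2_sum (φ : A →+* ℂ) (x : Pt 2) (p : A[X][X]) {e : ℕ}
    (h1 : p.natDegree < e) (h2 : ∀ i, (p.coeff i).natDegree < e) :
    ev2 φ x p = ∑ i : Fin e, ∑ j : Fin e, φ ((p.coeff i).coeff j) *
      (x 0 ^ (i : ℕ) * x 1 ^ (j : ℕ)) := by
  unfold ev2 ev1
  rw [coe_eval₂RingHom, eval₂_eq_sum_range' _ h1, Finset.sum_range]
  refine Finset.sum_congr rfl fun i _ => ?_
  rw [coe_eval₂RingHom, eval₂_eq_sum_range' _ (h2 i), Finset.sum_range, Finset.sum_mul]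
  refine Finset.sum_congr rfl fun j _ => ?_
  ring

/-- the polynomial of an equation -/
noncomputable def PE {N : ℕ} (c : Fin N → A) (α β : Fin N → Fin 2 → ℕ)
    (v : Fin 2) : A[X][X][X][X] :=
  ∑ l, C (C (C (C (c l) * X ^ (α l 1)) * X ^ (α l 0)) * X ^ (β l v)) * X ^ (β l (1 - v))

theorem ev_PE {N : ℕ} (φ : A →+* ℂ) (c : Fin N → A) (α β : Fin N → Fin 2 → ℕ)
    (v : Fin 2) (x : Pt 2) :
    ev4 φ v x (PE c α β v) = epoly (fun l => φ (c l)) α β x := by
  unfold PE epoly
  rw [map_sum]
  refine Finset.sum_congr rfl fun l _ => ?_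
  unfold ev4 ev3 ev2 ev1
  simp only [coe_eval₂RingHom, eval₂_mul, eval₂_C, eval₂_pow, eval₂_X]
  fin_cases v
  · simp
    ring
  · simp
    ring

/-- elimination over a domain `A` of functions on `T` -/
theorem elim_core [IsDomain A] {T : Type} (φ : T → (A →+* ℂ)) (hφ : ∀ a, (∀ t, φ t a = 0) → a = 0)
    (hT : Nonempty T) {N : ℕ} (c : Fin 2 → Fin N → A) (α β : Fin 2 → Fin N → Fin 2 → ℕ)
    (v : Fin 2) :
    ∃ (d e : ℕ) (b : Fin (d + 2) → Fin e → Fin e → A),
      (∃ i i', ∃ t, φ t (b (Fin.last (d + 1)) i i') ≠ 0) ∧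
      ∀ t, ∀ x : Pt 2, (fun i => epoly (fun l => φ t (c i l)) (α i) (β i) x : Pt 2) = 0 →
        (pJ (fun x i => epoly (fun l => φ t (c i l)) (α i) (β i) x) x).det ≠ 0 →
        ∑ j : Fin (d + 2), qpoly (fun i i' => φ t (b j i i')) x *
          Complex.exp (x v) ^ (j : ℕ) = 0 := by
  classical
  set P : Fin 2 → A[X][X][X][X] := fun i => PE (c i) (α i) (β i) v with hP
  have hev : ∀ (t : T) (x : Pt 2) (i : Fin 2), ev4 (φ t) v x (P i) =
      epoly (fun l => φ t (c i l)) (α i) (β i) x :=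
    fun t x i => ev_PE _ _ _ _ v x
  by_cases hPz : P 0 ≠ 0 ∨ P 1 ≠ 0
  · obtain ⟨r, g, A₁, A₂, B₁, B₂, hr, h1, h2, h3⟩ := euclid_clear (B := A[X][X][X]) (P 0) (P 1) hPz
    have hroot : ∀ (t : T) (x : Pt 2),
        (fun i => epoly (fun l => φ t (c i l)) (α i) (β i) x : Pt 2) = 0 →
        (pJ (fun x i => epoly (fun l => φ t (c i l)) (α i) (β i) x) x).det ≠ 0 →
        ev3 (φ t) v x r = 0 := by
      intro t x hx hd
      have hCr : ∀ y, ev4 (φ t) v y (C r) = ev3 (φ t) v y r := by
        intro y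
        unfold ev4
        rw [coe_eval₂RingHom, eval₂_C]
      refine det_crit (F := fun x i => epoly (fun l => φ t (c i l)) (α i) (β i) x)
        (g := fun y => ev4 (φ t) v y g)
        (r := fun y => ev3 (φ t) v y r)
        (a := ![fun y => ev4 (φ t) v y A₁, fun y => ev4 (φ t) v y A₂])
        (b := ![fun y => ev4 (φ t) v y B₁, fun y => ev4 (φ t) v y B₂]) ?_ (diff4 (φ t) v g)
        (diff3 (φ t) v r) ?_ hx hd ?_ ?_
      · rw [differentiable_pi]
        intro i
        have := diff4 (φ t) v (P i)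
        simp only [hev] at this
        exact this
      · intro i
        fin_cases i
        · exact diff4 (φ t) v A₁
        · exact diff4 (φ t) v A₂
      · intro i y
        fin_cases i
        · have := congrArg (ev4 (φ t) v y) h1
          rw [map_mul, map_mul, hCr, hev] at this
          exact this
        · have := congrArg (ev4 (φ t) v y) h2
          rw [map_mul, map_mul, hCr, hev] at this
          exact this
      · intro y
        have := congrArg (ev4 (φ t) v y) h3
        rw [map_add, map_mul, map_mul, hCr] at this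
        exact this
    set q := r * X with hq
    have hqd : q.natDegree = r.natDegree + 1 := natDegree_mul_X hr
    have hb : ∀ j, ∃ e₀ : ℕ, ∀ e ≥ e₀, (q.coeff j).natDegree < e ∧
        ∀ i, ((q.coeff j).coeff i).natDegree < e := fun j => deg_bound (q.coeff j)
    choose e₀ he₀ using hb
    set e := ∑ j ∈ Finset.range (r.natDegree + 2), e₀ j with he
    have hle : ∀ j : Fin (r.natDegree + 2), e₀ j ≤ e := fun j =>
      Finset.single_le_sum (f := fun j => e₀ j) (fun _ _ => Nat.zero_le _)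
        (Finset.mem_range.2 j.2)
    refine ⟨r.natDegree, e, fun j i i' => ((q.coeff j).coeff i).coeff i', ?_, ?_⟩
    · have hl : q.coeff (r.natDegree + 1) ≠ 0 := by
        rw [← hqd]
        exact leadingCoeff_ne_zero.2 (mul_ne_zero hr X_ne_zero)
      have hl1 : (q.coeff (r.natDegree + 1)).coeff (q.coeff (r.natDegree + 1)).natDegree ≠ 0 :=
        leadingCoeff_ne_zero.2 hl
      set i := (q.coeff (r.natDegree + 1)).natDegree with hi
      have hl2 : ((q.coeff (r.natDegree + 1)).coeff i).coeff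
          ((q.coeff (r.natDegree + 1)).coeff i).natDegree ≠ 0 := leadingCoeff_ne_zero.2 hl1
      set i' := ((q.coeff (r.natDegree + 1)).coeff i).natDegree with hi'
      have hb1 := he₀ (r.natDegree + 1) e (hle (Fin.last _))
      refine ⟨⟨i, hb1.1⟩, ⟨i', hb1.2 i⟩, ?_⟩
      by_contra hcon
      push Not at hcon
      exact hl2 (hφ _ hcon)
    · intro t x hx hd
      have h0 := hroot t x hx hd
      have h4 : ev3 (φ t) v x q = 0 := by
        rw [hq, map_mul, h0, zero_mul]
      unfold ev3 at h4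
      rw [coe_eval₂RingHom, eval₂_eq_sum_range, hqd, Finset.sum_range] at h4
      rw [← h4]
      refine Finset.sum_congr rfl fun j _ => ?_
      congr 1
      have hb1 := he₀ j e (hle j)
      rw [ev2_sum (φ t) x (q.coeff j) hb1.1 hb1.2]
      rfl
  · push Not at hPz
    refine ⟨0, 1, fun _ _ _ => 1, ?_, ?_⟩
    · obtain ⟨t⟩ := hT
      refine ⟨0, 0, t, ?_⟩
      rw [map_one]
      exact one_ne_zero
    · intro t x hx hd
      exfalso
      apply hd
      have hz : (fun x i => epoly (fun l => φ t (c i l)) (α i) (β i) x : Pt 2 → Pt 2) = 0 := by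
        funext y i
        rw [← hev t y i]
        have : P i = 0 := by
          fin_cases i
          · exact hPz.1
          · exact hPz.2
        rw [this, map_zero]
        rfl
      have : pJ (fun x i => epoly (fun l => φ t (c i l)) (α i) (β i) x : Pt 2 → Pt 2) x = 0 := by
        ext i j
        unfold pJ
        rw [hz]
        simp
      rw [this]
      simp

end ev

theorem elim2 {U : Set ℂ} (hU : IsOpen U) (hUc : IsPreconnected U) (hne : U.Nonempty) {N : ℕ}
    {c : Fin 2 → Fin N → ℂ → ℂ} (hc : ∀ i l, AnalyticOnNhd ℂ (c i l) U)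
    (α β : Fin 2 → Fin N → Fin 2 → ℕ) (v : Fin 2) :
    ∃ (d e : ℕ) (b : Fin (d + 2) → Fin e → Fin e → ℂ → ℂ),
      (∀ j i i', AnalyticOnNhd ℂ (b j i i') U) ∧
      (∃ i i', ∃ t ∈ U, b (Fin.last (d + 1)) i i' t ≠ 0) ∧
      ∀ t ∈ U, ∀ x : Pt 2, Sy c α β t x = 0 → (pJ (Sy c α β t) x).det ≠ 0 →
        ∑ j : Fin (d + 2), qpoly (fun i i' => b j i i' t) x * Complex.exp (x v) ^ (j : ℕ) = 0 := by
  classical
  have : IsDomain (AnR U) := anR_isDomain hUc hne
  have hrep : ∀ f : AnR U, ∃ F : ℂ → ℂ, AnalyticOnNhd ℂ F U ∧ ∀ t : U, f.1 t = F t :=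
    fun f => f.2
  choose rep hrepA hrepE using hrep
  obtain ⟨d, e, b, hb1, hb2⟩ := elim_core (A := AnR U) (T := U) (evA U)
    (fun a ha => Subtype.ext (funext ha)) hne.to_subtype
    (fun i l => ⟨fun t => c i l t, c i l, hc i l, fun _ => rfl⟩) α β v
  refine ⟨d, e, fun j i i' => rep (b j i i'), fun j i i' => hrepA _, ?_, ?_⟩
  · obtain ⟨i, i', t, ht⟩ := hb1
    refine ⟨i, i', t, t.2, ?_⟩
    show rep (b (Fin.last (d + 1)) i i') t ≠ 0
    rw [← hrepE]
    exact ht
  · intro t ht x hx hd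
    have := hb2 ⟨t, ht⟩ x hx hd
    rw [← this]
    refine Finset.sum_congr rfl fun j _ => ?_
    congr 1
    unfold qpoly
    refine Finset.sum_congr rfl fun i _ => Finset.sum_congr rfl fun i' _ => ?_
    congr 1
    exact (hrepE _ ⟨t, ht⟩).symm

end Pool.Agent.T2H96.TW
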